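import Pool.Agent.Lib.MP_a2be38_co.Heis

/-!
# The anisotropic norm form on `(ZMod p)²` and its circles
-/

set_option autoImplicit false

namespace Pool.Agent.MP_a2be38_co

open Finset Matrix

variable {p : ℕ} [Fact p.Prime]

/-- norm form -/
def Q (δ : ZMod p) (w : ZMod p × ZMod p) : ZMod p := w.1 ^ 2 - δ * w.2 ^ 2

/-- polar form -/
def Bf (δ : ZMod p) (v w : ZMod p × ZMod p) : ZMod p := v.1 * w.1 - δ * v.2 * w.2

theorem Q_neg (δ : ZMod p) (w : ZMod p × ZMod p) : Q δ (-w) = Q δ w := by simp [Q]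

theorem Q_zero (δ : ZMod p) : Q δ (0 : ZMod p × ZMod p) = 0 := by simp [Q]

theorem Q_add (δ : ZMod p) (v w : ZMod p × ZMod p) :
    Q δ (v + w) = Q δ v + Q δ w + 2 * Bf δ v w := by
  simp only [Q, Bf, Prod.fst_add, Prod.snd_add]; ring

theorem QQ (δ : ZMod p) (v w : ZMod p × ZMod p) :
    Q δ v * Q δ w = Bf δ v w ^ 2 - δ * ω v w ^ 2 := by
  simp only [Q, Bf, ω]; ring

theorem Q_eq_zero {δ : ZMod p} (hδ : ¬ IsSquare δ) {w : ZMod p × ZMod p} (h : Q δ w = 0) :
    w = 0 := by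
  by_cases h2 : w.2 = 0
  · have h1 : w.1 = 0 := by
      have : w.1 ^ 2 = 0 := by simpa [Q, h2] using h
      exact pow_eq_zero_iff (two_ne_zero) |>.1 this
    exact Prod.ext h1 h2
  · exfalso
    apply hδ
    refine ⟨w.1 / w.2, ?_⟩
    have : w.1 ^ 2 = δ * w.2 ^ 2 := sub_eq_zero.1 h
    field_simp
    linear_combination -this

theorem Q_ne_zero {δ : ZMod p} (hδ : ¬ IsSquare δ) {w : ZMod p × ZMod p} (h : w ≠ 0) :
    Q δ w ≠ 0 := fun h' => h (Q_eq_zero hδ h')

theorem Q_surj (hp : p ≠ 2) {δ : ZMod p} (hδ : ¬ IsSquare δ) (r : ZMod p) : ∃ w, Q δ w = r := by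
  have hδ0 : δ ≠ 0 := by rintro rfl; exact hδ ⟨0, by simp⟩
  have hcard : Fintype.card (ZMod p) % 2 = 1 := by
    rw [ZMod.card]
    rcases (Fact.out (p := p.Prime)).eq_two_or_odd with h | h
    · exact absurd h hp
    · exact h
  obtain ⟨a, b, hab⟩ := FiniteField.exists_root_sum_quadratic
    (f := Polynomial.C (1 : ZMod p) * Polynomial.X ^ 2 + Polynomial.C 0 * Polynomial.X +
      Polynomial.C 0)
    (g := Polynomial.C (-δ) * Polynomial.X ^ 2 + Polynomial.C 0 * Polynomial.X +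
      Polynomial.C (-r))
    (Polynomial.degree_quadratic one_ne_zero) (Polynomial.degree_quadratic (neg_ne_zero.2 hδ0))
    hcard
  refine ⟨(a, b), ?_⟩
  simp at hab
  simp only [Q]
  linear_combination hab

/-- multiplication of `(ZMod p)[√δ]` -/
def cmul (δ : ZMod p) (z w : ZMod p × ZMod p) : ZMod p × ZMod p :=
  (z.1 * w.1 + δ * z.2 * w.2, z.1 * w.2 + z.2 * w.1)

theorem Q_cmul (δ : ZMod p) (z w : ZMod p × ZMod p) : Q δ (cmul δ z w) = Q δ z * Q δ w := by
  simp only [Q, cmul]; ring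

theorem cmul_inj {δ : ZMod p} {z : ZMod p × ZMod p} (hz : Q δ z ≠ 0) :
    Function.Injective (cmul δ z) := by
  intro v w h
  have h1 : z.1 * v.1 + δ * z.2 * v.2 = z.1 * w.1 + δ * z.2 * w.2 := congrArg Prod.fst h
  have h2 : z.1 * v.2 + z.2 * v.1 = z.1 * w.2 + z.2 * w.1 := congrArg Prod.snd h
  have e1 : Q δ z * (v.1 - w.1) = 0 := by
    simp only [Q]; linear_combination z.1 * h1 - δ * z.2 * h2
  have e2 : Q δ z * (v.2 - w.2) = 0 := by
    simp only [Q]; linear_combination z.1 * h2 - z.2 * h1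
  exact Prod.ext (sub_eq_zero.1 ((mul_eq_zero.1 e1).resolve_left hz))
    (sub_eq_zero.1 ((mul_eq_zero.1 e2).resolve_left hz))

/-- circle -/
def Cr (δ r : ZMod p) : Finset (ZMod p × ZMod p) := univ.filter fun w => Q δ w = r

theorem mem_Cr {δ r : ZMod p} {w : ZMod p × ZMod p} : w ∈ Cr δ r ↔ Q δ w = r := by simp [Cr]

theorem card_le (hp : p ≠ 2) {δ : ZMod p} (hδ : ¬ IsSquare δ) (r : ZMod p) {s : ZMod p}
    (hs : s ≠ 0) : (Cr δ r).card ≤ (Cr δ (s * r)).card := by
  obtain ⟨z, hz⟩ := Q_surj hp hδ s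
  apply Finset.card_le_card_of_injOn (cmul δ z)
  · intro w hw
    rw [Finset.mem_coe, mem_Cr] at hw ⊢
    rw [Q_cmul, hz, hw]
  · exact (cmul_inj (by rw [hz]; exact hs)).injOn

theorem Cr_zero {δ : ZMod p} (hδ : ¬ IsSquare δ) : Cr δ 0 = {0} := by
  ext w
  rw [mem_Cr, Finset.mem_singleton]
  exact ⟨fun h => Q_eq_zero hδ h, fun h => by rw [h, Q_zero]⟩

theorem card_Cr (hp : p ≠ 2) {δ : ZMod p} (hδ : ¬ IsSquare δ) {r : ZMod p} (hr : r ≠ 0) :
    (Cr δ r).card = p + 1 := by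
  have hall : ∀ s : ZMod p, s ≠ 0 → (Cr δ s).card = (Cr δ r).card := by
    intro s hs
    apply le_antisymm
    · have := card_le hp hδ s (s := r / s) (div_ne_zero hr hs)
      rwa [div_mul_cancel₀ _ hs] at this
    · have := card_le hp hδ r (s := s / r) (div_ne_zero hs hr)
      rwa [div_mul_cancel₀ _ hr] at this
  have htot : ∑ s : ZMod p, (Cr δ s).card = p ^ 2 := by
    have h := Finset.card_eq_sum_card_fiberwise (s := (univ : Finset (ZMod p × ZMod p)))
      (t := (univ : Finset (ZMod p))) (f := Q δ) (fun _ _ => Finset.mem_coe.2 (Finset.mem_univ _))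
    have h2 : (univ : Finset (ZMod p × ZMod p)).card = p ^ 2 := by
      rw [Finset.card_univ, Fintype.card_prod, ZMod.card]; ring
    rw [← h2, h]
    rfl
  rw [← Finset.add_sum_erase _ _ (Finset.mem_univ (0 : ZMod p)), Cr_zero hδ,
    Finset.card_singleton] at htot
  rw [Finset.sum_congr rfl (fun s hs => hall s (Finset.ne_of_mem_erase hs)), Finset.sum_const,
    Finset.card_erase_of_mem (Finset.mem_univ _), Finset.card_univ, ZMod.card, smul_eq_mul] at htot
  have hp2 := (Fact.out (p := p.Prime)).two_le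
  obtain ⟨k, rfl⟩ : ∃ k, p = k + 2 := ⟨p - 2, by omega⟩
  have : k + 2 - 1 = k + 1 := by omega
  rw [this] at htot
  have h3 : (k + 1) * (Cr δ r).card = (k + 1) * (k + 2 + 1) := by
    have : (k + 2) ^ 2 = 1 + (k + 1) * (k + 2 + 1) := by ring
    omega
  exact Nat.eq_of_mul_eq_mul_left (by omega) h3

/-- the intersection of two circles -/
theorem circ_sum (hp : p ≠ 2) {δ : ZMod p} {v : ZMod p × ZMod p} (hv : Q δ v ≠ 0)
    (s t : ZMod p) (g : ZMod p → ℂ) :
    ∑ z : ZMod p × ZMod p, (if Q δ z = s ∧ Q δ (v + z) = t then g (ω v z) else 0) =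
      ∑ y : ZMod p, (if δ * y ^ 2 = (hf * (t - Q δ v - s)) ^ 2 - Q δ v * s then g y else 0) := by
  have h2 := two_hf hp
  rw [← Finset.sum_filter, ← Finset.sum_filter]
  set β : ZMod p := hf * (t - Q δ v - s) with hβ
  have hv' : v.1 ^ 2 - δ * v.2 ^ 2 ≠ 0 := hv
  refine Finset.sum_bij' (fun z _ => ω v z)
    (fun y _ => ((β * v.1 + δ * y * v.2) / Q δ v, (β * v.2 + y * v.1) / Q δ v)) ?_ ?_ ?_ ?_ ?_
  · intro z hz
    rw [Finset.mem_filter] at hz ⊢
    obtain ⟨-, h1, h3⟩ := hz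
    refine ⟨Finset.mem_univ _, ?_⟩
    have hB : Bf δ v z = β := by
      rw [Q_add, h1] at h3
      rw [hβ]
      linear_combination (-(Bf δ v z)) * h2 + hf * h3
    have := QQ δ v z
    rw [h1, hB] at this
    linear_combination this
  · intro y hy
    rw [Finset.mem_filter] at hy ⊢
    obtain ⟨-, h1⟩ := hy
    have hB : Bf δ v ((β * v.1 + δ * y * v.2) / Q δ v, (β * v.2 + y * v.1) / Q δ v) = β := by
      simp only [Bf, Q]
      field_simp
      ring
    have hQ : Q δ ((β * v.1 + δ * y * v.2) / Q δ v, (β * v.2 + y * v.1) / Q δ v) = s := by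
      have e : Q δ ((β * v.1 + δ * y * v.2) / Q δ v, (β * v.2 + y * v.1) / Q δ v) * Q δ v =
          β ^ 2 - δ * y ^ 2 := by
        simp only [Q]
        field_simp
        ring
      rw [h1] at e
      have e2 : Q δ ((β * v.1 + δ * y * v.2) / Q δ v, (β * v.2 + y * v.1) / Q δ v) * Q δ v =
          s * Q δ v := by rw [e]; ring
      exact mul_right_cancel₀ hv e2
    refine ⟨Finset.mem_univ _, hQ, ?_⟩
    rw [Q_add, hQ, hB, hβ]
    linear_combination (t - Q δ v - s) * h2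
  · intro z hz
    rw [Finset.mem_filter] at hz
    obtain ⟨-, h1, h3⟩ := hz
    have hB : Bf δ v z = β := by
      rw [Q_add, h1] at h3
      rw [hβ]
      linear_combination (-(Bf δ v z)) * h2 + hf * h3
    rw [← hB]
    apply Prod.ext
    · simp only [Bf, ω, Q]
      field_simp
      ring
    · simp only [Bf, ω, Q]
      field_simp
      ring
  · intro y _
    have e : ω v ((β * v.1 + δ * y * v.2) / Q δ v, (β * v.2 + y * v.1) / Q δ v) * Q δ v =
        y * Q δ v := by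
      have a1 : (β * v.2 + y * v.1) / Q δ v * Q δ v = β * v.2 + y * v.1 := div_mul_cancel₀ _ hv
      have a2 : (β * v.1 + δ * y * v.2) / Q δ v * Q δ v = β * v.1 + δ * y * v.2 :=
        div_mul_cancel₀ _ hv
      have a3 : Q δ v = v.1 ^ 2 - δ * v.2 ^ 2 := rfl
      simp only [ω]
      linear_combination v.1 * a1 - v.2 * a2 - y * a3
    exact mul_right_cancel₀ hv e
  · intro z _
    rfl

end Pool.Agent.MP_a2be38_co
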