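import Pool.Agent.Lib.MP_a2be38_co.Moment

/-!
# Weighted designs from moment identities
-/

set_option autoImplicit false

namespace Pool.Agent.MP_a2be38_co

open MeasureTheory Metric Finset

variable {d : ℕ}

/-- weighted spherical designs (with respect to the surface measure) of strength `s` with `N` points -/
def HasDesign (d s N : ℕ) : Prop :=
  ∃ x : Fin N → Metric.sphere (0 : EuclideanSpace ℝ (Fin d)) 1,
    ∃ w : Fin N → ℝ, (∀ i, 0 < w i) ∧
      ∀ p : MvPolynomial (Fin d) ℝ, p.totalDegree ≤ s →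
        ∑ i, w i * MvPolynomial.eval
            (fun j => WithLp.ofLp (x i : EuclideanSpace ℝ (Fin d)) j) p
          = ∫ y, MvPolynomial.eval
            (fun j => WithLp.ofLp (y : EuclideanSpace ℝ (Fin d)) j) p
            ∂(volume : Measure (EuclideanSpace ℝ (Fin d))).toSphere

/-- the constant is positive -/
theorem lambda_pos (hd : 1 ≤ d) {t : ℕ} {κ : Type} [Fintype κ] (y : κ → Eu d)
    (c : κ → ℝ) (hc : ∀ i, 0 < c i)
    (h : ∀ g : Eu d, ∑ i, c i * (inner ℝ (y i) g) ^ (2 * t) = ‖g‖ ^ (2 * t)) {lam : ℝ}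
    (hl : ∀ g : Eu d, ∫ x, (inner ℝ (x : Eu d) g) ^ (2 * t) ∂(mu d) = lam * ‖g‖ ^ (2 * t)) :
    0 < lam := by
  have h1 : (mu d).real Set.univ = lam * ∑ i, c i * ‖y i‖ ^ (2 * t) := by
    have h2 : ∫ x, (∑ i, c i * (inner ℝ (y i) (x : Eu d)) ^ (2 * t)) ∂(mu d) =
        (mu d).real Set.univ := by
      have : ∀ x : Sp d, ∑ i, c i * (inner ℝ (y i) (x : Eu d)) ^ (2 * t) = 1 := by
        intro x
        rw [h]
        have := x.2
        rw [mem_sphere_zero_iff_norm] at this
        rw [this, one_pow]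
      simp_rw [this]
      rw [integral_const]; simp
    rw [← h2, integral_finset_sum]
    · simp_rw [integral_const_mul, real_inner_comm, hl]
      rw [Finset.mul_sum]
      apply Finset.sum_congr rfl
      intro i _
      ring
    · intro i _
      apply integrable_cont
      fun_prop
  have h3 := mu_univ_pos hd
  rw [h1] at h3
  have h4 : 0 ≤ ∑ i, c i * ‖y i‖ ^ (2 * t) :=
    Finset.sum_nonneg fun i _ => mul_nonneg (hc i).le (by positivity)
  by_contra hneg
  push Not at hneg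
  have := mul_nonpos_of_nonpos_of_nonneg hneg h4
  linarith

/-- designs from moment identities -/
theorem design_of_moment (hd : 1 ≤ d) {t : ℕ} (ht : 1 ≤ t) {κ : Type} [Fintype κ] (y : κ → Eu d)
    (c : κ → ℝ) (hc : ∀ i, 0 < c i)
    (h : ∀ g : Eu d, ∑ i, c i * (inner ℝ (y i) g) ^ (2 * t) = ‖g‖ ^ (2 * t)) :
    ∃ N : ℕ, N ≤ 2 * Fintype.card κ ∧ HasDesign d (2 * t + 1) N := by
  classical
  obtain ⟨lam, hl⟩ := exists_lambda hd t ht
  have hpos := lambda_pos hd y c hc h hl
  let ι := {i : κ // y i ≠ 0} × Bool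
  let sg : Bool → ℝ := fun b => if b then 1 else -1
  have hsg : ∀ b, |sg b| = 1 := by intro b; cases b <;> simp [sg]
  have hsg2 : ∀ b, (sg b) ^ (2 * t) = 1 := by
    intro b; rw [pow_mul]; cases b <;> simp [sg]
  let x : ι → Sp d := fun i => ⟨sg i.2 • ‖y i.1.1‖⁻¹ • y i.1.1, by
    rw [mem_sphere_zero_iff_norm, norm_smul, norm_smul, Real.norm_eq_abs, hsg, norm_inv, norm_norm,
      one_mul, inv_mul_cancel₀ (norm_ne_zero_iff.2 i.1.2)]⟩
  let w : ι → ℝ := fun i => lam * c i.1.1 * ‖y i.1.1‖ ^ (2 * t) / 2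
  have hw : ∀ i, 0 < w i := by
    intro i
    have := norm_pos_iff.2 i.1.2
    have := hc i.1.1
    simp only [w]; positivity
  have hmom : ∀ g : Eu d, ∑ i, w i * (inner ℝ (x i : Eu d) g) ^ (2 * t) =
      ∫ z, (inner ℝ (z : Eu d) g) ^ (2 * t) ∂(mu d) := by
    intro g
    rw [hl, ← h g, Finset.mul_sum]
    have e1 : ∀ i : ι, w i * (inner ℝ (x i : Eu d) g) ^ (2 * t) =
        lam * (c i.1.1 * (inner ℝ (y i.1.1) g) ^ (2 * t)) / 2 := by
      rintro ⟨⟨i, hi⟩, b⟩
      have hn : ‖y i‖ ≠ 0 := norm_ne_zero_iff.2 hi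
      simp only [w, x]
      rw [real_inner_smul_left, real_inner_smul_left, mul_pow, mul_pow, hsg2, one_mul, inv_pow]
      have : ‖y i‖ ^ (2 * t) ≠ 0 := pow_ne_zero _ hn
      field_simp
    simp_rw [e1]
    rw [Fintype.sum_prod_type]
    simp only [Fintype.sum_bool]
    have e2 : ∀ i : {i : κ // y i ≠ 0}, lam * (c i.1 * (inner ℝ (y i.1) g) ^ (2 * t)) / 2 +
        lam * (c i.1 * (inner ℝ (y i.1) g) ^ (2 * t)) / 2 =
        lam * (c i.1 * (inner ℝ (y i.1) g) ^ (2 * t)) := fun i => by ring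
    simp_rw [e2]
    refine Fintype.sum_of_injective (fun i : {i : κ // y i ≠ 0} => i.1) Subtype.val_injective
      _ _ ?_ (fun i => rfl)
    intro i hi
    have hi0 : y i = 0 := by
      by_contra h0
      exact hi ⟨⟨i, h0⟩, rfl⟩
    have : 2 * t ≠ 0 := by omega
    rw [hi0]; simp [this]
  let σ : ι ≃ ι :=
    { toFun := fun i => (i.1, !i.2)
      invFun := fun i => (i.1, !i.2)
      left_inv := fun i => by simp
      right_inv := fun i => by simp }
  have hxσ : ∀ i, (x (σ i) : Eu d) = -(x i : Eu d) := by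
    rintro ⟨i, b⟩
    change sg (!b) • ‖y i.1‖⁻¹ • y i.1 = -(sg b • ‖y i.1‖⁻¹ • y i.1)
    cases b <;> simp [sg]
  have hwσ : ∀ i, w (σ i) = w i := fun i => rfl
  have hfin := Lam_all x w hmom σ hxσ hwσ
  refine ⟨Fintype.card ι, ?_, ?_⟩
  · simp only [ι, Fintype.card_prod, Fintype.card_bool]
    rw [mul_comm]
    exact Nat.mul_le_mul_left 2 (Fintype.card_subtype_le _)
  · let e := Fintype.equivFin ι
    refine ⟨fun i => x (e.symm i), fun i => w (e.symm i), fun i => hw _, ?_⟩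
    intro P hP
    have h1 := hfin P hP
    rw [Lam_apply, sub_eq_zero] at h1
    rw [← Equiv.sum_comp e]
    simp only [Equiv.symm_apply_apply]
    exact h1

end Pool.Agent.MP_a2be38_co
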