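import Mathlib

/-!
# Heisenberg (Weyl) matrices over `ZMod p`
-/

set_option autoImplicit false

namespace Pool.Agent.MP_a2be38_co

open Finset Matrix

variable {p : ℕ} [Fact p.Prime]

/-- the standard additive character. -/
noncomputable abbrev ψ (x : ZMod p) : ℂ := ZMod.stdAddChar x

theorem ψ_add (x y : ZMod p) : ψ (x + y) = ψ x * ψ y := AddChar.map_add_eq_mul _ x y

theorem ψ_zero : ψ (0 : ZMod p) = 1 := AddChar.map_zero_eq_one _

theorem ψ_neg (x : ZMod p) : star (ψ x) = ψ (-x) := by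
  have h : ψ x * ψ (-x) = 1 := by rw [← ψ_add]; simp
  have hn : ‖ψ x‖ = 1 := by
    rw [ψ, ZMod.stdAddChar_apply]; exact Circle.norm_coe _
  have h2 : ψ x * star (ψ x) = 1 := by
    rw [Complex.star_def, Complex.mul_conj, Complex.normSq_eq_norm_sq, hn]; simp
  have hne : ψ x ≠ 0 := by
    intro h0; rw [h0] at hn; simp at hn
  exact mul_left_cancel₀ hne (h2.trans h.symm)

theorem sum_ψ (b : ZMod p) : ∑ x : ZMod p, ψ (b * x) = if b = 0 then (p : ℂ) else 0 := by
  have := AddChar.sum_mulShift b (ZMod.isPrimitive_stdAddChar p)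
  simp only [ZMod.card, Nat.cast_ite, Nat.cast_zero] at this
  rw [← this]
  exact Finset.sum_congr rfl fun x _ => by rw [mul_comm]

/-- the symplectic form. -/
def ω (v w : ZMod p × ZMod p) : ZMod p := v.1 * w.2 - w.1 * v.2

theorem sum_ψω (w : ZMod p × ZMod p) :
    ∑ v : ZMod p × ZMod p, ψ (-ω v w) = if w = 0 then (p : ℂ) ^ 2 else 0 := by
  rw [Fintype.sum_prod_type]
  have : ∀ x y : ZMod p, ψ (-ω (x, y) w) = ψ ((-w.2) * x) * ψ (w.1 * y) := by
    intro x y
    rw [← ψ_add]; congr 1; simp only [ω]; ring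
  simp_rw [this, ← Finset.mul_sum, sum_ψ, ← Finset.sum_mul, sum_ψ]
  by_cases h1 : w.1 = 0 <;> by_cases h2 : w.2 = 0
  · have : w = 0 := Prod.ext h1 h2
    simp [this]; ring
  · have : w ≠ 0 := fun h => h2 (by simp [h])
    simp [h2, this]
  · have : w ≠ 0 := fun h => h1 (by simp [h])
    simp [h1, this]
  · have : w ≠ 0 := fun h => h1 (by simp [h])
    simp [h1, this]

/-- one half. -/
def hf : ZMod p := 2⁻¹

/-- the Weyl matrices. -/
noncomputable def E (w : ZMod p × ZMod p) : Matrix (ZMod p) (ZMod p) ℂ :=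
  fun x y => if y = x + w.1 then ψ (w.2 * x + hf * w.1 * w.2) else 0

theorem E_apply (w : ZMod p × ZMod p) (x y : ZMod p) :
    E w x y = if y = x + w.1 then ψ (w.2 * x + hf * w.1 * w.2) else 0 := rfl

theorem two_hf (hp : p ≠ 2) : (hf : ZMod p) + hf = 1 := by
  have : (2 : ZMod p) ≠ 0 := by
    intro h
    have h2 : ((2 : ℕ) : ZMod p) = 0 := by exact_mod_cast h
    rw [ZMod.natCast_eq_zero_iff] at h2
    have hp' := Fact.out (p := p.Prime)
    exact hp ((Nat.prime_dvd_prime_iff_eq hp' Nat.prime_two).1 h2)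
  rw [hf, ← two_mul, mul_inv_cancel₀ this]

theorem E_mul (hp : p ≠ 2) (v w : ZMod p × ZMod p) : E v * E w = ψ (hf * ω v w) • E (v + w) := by
  have h2 := two_hf hp
  ext x z
  rw [Matrix.mul_apply, Matrix.smul_apply, smul_eq_mul]
  simp only [E_apply]
  rw [Finset.sum_eq_single (x + v.1)]
  · simp only [if_true, Prod.fst_add, Prod.snd_add, mul_ite, mul_zero, add_assoc]
    split_ifs with h
    · rw [← ψ_add, ← ψ_add]
      congr 1
      simp only [ω]
      linear_combination (-(v.1 * w.2)) * h2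
    · rfl
  · intro y _ hy; rw [if_neg hy, zero_mul]
  · intro h; exact absurd (Finset.mem_univ _) h

theorem E_zero : E (0 : ZMod p × ZMod p) = 1 := by
  ext x y
  rw [E_apply, Matrix.one_apply]
  by_cases h : x = y
  · subst h; simp
  · rw [if_neg h, if_neg]; simpa using fun h' => h h'.symm

theorem E_conj (hp : p ≠ 2) (w : ZMod p × ZMod p) : (E w)ᴴ = E (-w) := by
  have h2 := two_hf hp
  ext x y
  rw [Matrix.conjTranspose_apply, E_apply, E_apply]
  by_cases h : x = y + w.1
  · have h' : y = x + (-w).1 := by rw [h]; simp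
    rw [if_pos h, if_pos h', ψ_neg]
    congr 1
    rw [h]; simp only [Prod.fst_neg, Prod.snd_neg]
    linear_combination (-(w.1 * w.2)) * h2
  · have h' : ¬ y = x + (-w).1 := by
      intro h'; apply h; rw [h']; simp
    rw [if_neg h, if_neg h', star_zero]

theorem trace_E (w : ZMod p × ZMod p) : (E w).trace = if w = 0 then (p : ℂ) else 0 := by
  rw [Matrix.trace]
  simp only [Matrix.diag_apply, E_apply]
  by_cases h1 : w.1 = 0
  · have : ∀ x : ZMod p, (if x = x + w.1 then ψ (w.2 * x + hf * w.1 * w.2) else 0) =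
        ψ (w.2 * x) := by intro x; rw [h1]; simp
    simp_rw [this, sum_ψ]
    by_cases h2 : w.2 = 0
    · have : w = 0 := Prod.ext h1 h2
      simp [this]
    · have : w ≠ 0 := fun h => h2 (by simp [h])
      simp [h2, this]
  · have : w ≠ 0 := fun h => h1 (by simp [h])
    simp [h1, this]

theorem trace_EE (hp : p ≠ 2) (v w : ZMod p × ZMod p) :
    (E v * E w).trace = if v + w = 0 then (p : ℂ) else 0 := by
  rw [E_mul hp, Matrix.trace_smul, trace_E]
  by_cases h : v + w = 0
  · have : ω v w = 0 := by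
      have : w = -v := (neg_eq_of_add_eq_zero_right h).symm
      rw [this]; simp only [ω, Prod.fst_neg, Prod.snd_neg]; ring
    simp [h, this]
  · simp [h]

theorem trace_EEE (hp : p ≠ 2) (u v w : ZMod p × ZMod p) :
    (E u * E v * E w).trace = if u + v + w = 0 then (p : ℂ) * ψ (hf * ω u v) else 0 := by
  rw [E_mul hp, Matrix.smul_mul, Matrix.trace_smul, trace_EE hp]
  by_cases h : u + v + w = 0
  · simp [h]; ring
  · simp [h]

/-- completeness of the Weyl matrices -/
theorem complete (hp : p ≠ 2) (X : Matrix (ZMod p) (ZMod p) ℂ) :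
    (p : ℂ) • X = ∑ w : ZMod p × ZMod p, (X * E w).trace • E (-w) := by
  have h2 := two_hf hp
  ext x' y'
  rw [Matrix.smul_apply, Matrix.sum_apply, smul_eq_mul]
  simp only [Matrix.smul_apply, smul_eq_mul]
  have key : ∀ w : ZMod p × ZMod p, (X * E w).trace = ∑ y : ZMod p, X (y + w.1) y *
      ψ (w.2 * y + hf * w.1 * w.2) := by
    intro w
    rw [Matrix.trace]
    simp only [Matrix.diag_apply, Matrix.mul_apply, E_apply]
    rw [Finset.sum_comm]
    apply Finset.sum_congr rfl
    intro y _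
    rw [Finset.sum_eq_single (y + w.1)]
    · simp
    · intro b _ hb; rw [if_neg hb, mul_zero]
    · intro h; exact absurd (Finset.mem_univ _) h
  simp_rw [key]
  rw [Fintype.sum_prod_type]
  rw [Finset.sum_eq_single (x' - y')]
  · have : ∀ b : ZMod p, (∑ y : ZMod p, X (y + ((x' - y', b) : ZMod p × ZMod p).1) y *
        ψ (((x' - y', b) : ZMod p × ZMod p).2 * y + hf * ((x' - y', b) : ZMod p × ZMod p).1 *
          ((x' - y', b) : ZMod p × ZMod p).2)) * E (-((x' - y', b) : ZMod p × ZMod p)) x' y' =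
        ∑ y : ZMod p, X (y + (x' - y')) y * ψ ((y - y') * b) := by
      intro b
      have he : E (-((x' - y', b) : ZMod p × ZMod p)) x' y' =
          ψ (-b * x' + hf * (x' - y') * b) := by
        rw [E_apply, if_pos]
        · congr 1; simp only [Prod.fst_neg, Prod.snd_neg]; ring
        · simp
      rw [he, Finset.sum_mul]
      apply Finset.sum_congr rfl
      intro y _
      rw [mul_assoc, ← ψ_add]
      congr 2
      simp only
      linear_combination ((x' - y') * b) * h2
    simp_rw [this]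
    rw [Finset.sum_comm]
    simp_rw [← Finset.mul_sum, sum_ψ]
    rw [Finset.sum_eq_single y']
    · simp; ring
    · intro y _ hy; rw [if_neg (sub_ne_zero.2 hy), mul_zero]
    · intro h; exact absurd (Finset.mem_univ _) h
  · intro a _ ha
    apply Finset.sum_eq_zero
    intro b _
    have he : E (-((a, b) : ZMod p × ZMod p)) x' y' = 0 := by
      rw [E_apply, if_neg]
      intro h; apply ha; rw [h]; simp
    rw [he, mul_zero]
  · intro h; exact absurd (Finset.mem_univ _) h

/-- rank one matrices -/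
noncomputable def P (f : ZMod p → ℂ) : Matrix (ZMod p) (ZMod p) ℂ := vecMulVec f (star f)

/-- ambiguity function -/
noncomputable def amb (f : ZMod p → ℂ) (w : ZMod p × ZMod p) : ℂ := (P f * E w).trace

/-- squared norm -/
noncomputable def nsq (f : ZMod p → ℂ) : ℂ := star f ⬝ᵥ f

theorem P_mul (f g : ZMod p → ℂ) : P f * P g = (star f ⬝ᵥ g) • vecMulVec f (star g) := by
  rw [P, P, Matrix.vecMulVec_mul_vecMulVec]
  ext x y
  simp [Matrix.vecMulVec_apply, mul_comm, mul_assoc]

theorem trace_PP (f g : ZMod p → ℂ) : (P f * P g).trace = (star f ⬝ᵥ g) * (star g ⬝ᵥ f) := by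
  rw [P_mul, Matrix.trace_smul, Matrix.trace_vecMulVec, smul_eq_mul, dotProduct_comm f (star g)]

theorem amb_zero (f : ZMod p → ℂ) : amb f 0 = nsq f := by
  rw [amb, E_zero, Matrix.mul_one, P, Matrix.trace_vecMulVec, nsq, dotProduct_comm]

theorem P_expand (hp : p ≠ 2) (f : ZMod p → ℂ) :
    (p : ℂ) • P f = ∑ w : ZMod p × ZMod p, amb f w • E (-w) := complete hp (P f)

theorem trace_PP_amb (hp : p ≠ 2) (g f : ZMod p → ℂ) :
    (p : ℂ) * (P g * P f).trace = ∑ w : ZMod p × ZMod p, amb g w * amb f (-w) := by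
  have : (p : ℂ) * (P g * P f).trace = (((p : ℂ) • P g) * P f).trace := by
    rw [Matrix.smul_mul, Matrix.trace_smul, smul_eq_mul]
  rw [this, P_expand hp, Matrix.sum_mul, Matrix.trace_sum]
  apply Finset.sum_congr rfl
  intro w _
  rw [Matrix.smul_mul, Matrix.trace_smul, smul_eq_mul, Matrix.trace_mul_comm]
  rfl

theorem sum_amb_sq (hp : p ≠ 2) (f : ZMod p → ℂ) :
    ∑ w : ZMod p × ZMod p, amb f w * amb f (-w) = (p : ℂ) * nsq f ^ 2 := by
  rw [← trace_PP_amb hp, trace_PP, ← nsq]; ring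

/-- the cubic identity -/
theorem sum_amb_cube (hp : p ≠ 2) (f : ZMod p → ℂ) :
    ∑ u : ZMod p × ZMod p, ∑ v : ZMod p × ZMod p,
      ψ (hf * ω u v) * (amb f u * amb f v * amb f (-(u + v))) = (p : ℂ) ^ 2 * nsq f ^ 3 := by
  have hp0 : (p : ℂ) ≠ 0 := by
    have := (Fact.out (p := p.Prime)).pos
    exact_mod_cast this.ne'
  have h1 : (((p : ℂ) • P f) * ((p : ℂ) • P f) * ((p : ℂ) • P f)).trace = (p : ℂ) ^ 3 *
      nsq f ^ 3 := by
    have : ((p : ℂ) • P f) * ((p : ℂ) • P f) * ((p : ℂ) • P f) =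
        ((p : ℂ) ^ 3) • (P f * P f * P f) := by
      simp only [Matrix.smul_mul, Matrix.mul_smul, smul_smul]; ring_nf
    rw [this, Matrix.trace_smul]
    have h3 : P f * P f = nsq f • P f := by rw [P_mul]; rfl
    rw [h3, Matrix.smul_mul, h3, smul_smul, Matrix.trace_smul]
    have h4 : (P f).trace = nsq f := by
      rw [P, Matrix.trace_vecMulVec, nsq, dotProduct_comm]
    rw [h4]; simp only [smul_eq_mul]; ring
  have h2 : (((p : ℂ) • P f) * ((p : ℂ) • P f) * ((p : ℂ) • P f)).trace =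
      (p : ℂ) * ∑ u : ZMod p × ZMod p, ∑ v : ZMod p × ZMod p,
      ψ (hf * ω u v) * (amb f u * amb f v * amb f (-(u + v))) := by
    rw [P_expand hp, Finset.sum_mul_sum, Finset.sum_mul, Matrix.trace_sum, Finset.mul_sum]
    apply Finset.sum_congr rfl
    intro u _
    rw [Finset.sum_mul, Matrix.trace_sum, Finset.mul_sum]
    apply Finset.sum_congr rfl
    intro v _
    rw [Finset.mul_sum, Matrix.trace_sum, Finset.sum_eq_single (-(u + v))]
    · simp only [Matrix.smul_mul, Matrix.mul_smul, Matrix.trace_smul, smul_eq_mul]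
      rw [trace_EEE hp, if_pos (by abel)]
      have : ω (-u) (-v) = ω u v := by simp only [ω, Prod.fst_neg, Prod.snd_neg]; ring
      rw [this]; ring
    · intro w _ hw
      simp only [Matrix.smul_mul, Matrix.mul_smul, Matrix.trace_smul, smul_eq_mul]
      rw [trace_EEE hp, if_neg]
      · ring
      · intro h; apply hw
        have : w = -u + -v := by
          have : -w = -(-u + -v) := by rw [eq_neg_iff_add_eq_zero, add_comm]; exact h
          exact neg_injective this
        rw [this]; abel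
    · intro h; exact absurd (Finset.mem_univ _) h
  have h3 := h2.symm.trans h1
  have : (p : ℂ) ^ 3 * nsq f ^ 3 = (p : ℂ) * ((p : ℂ) ^ 2 * nsq f ^ 3) := by ring
  rw [this] at h3
  exact mul_left_cancel₀ hp0 h3

theorem P_conj (hp : p ≠ 2) (v : ZMod p × ZMod p) (f : ZMod p → ℂ) :
    P (E v *ᵥ f) = E v * P f * E (-v) := by
  rw [P, P, ← E_conj hp, Matrix.mul_vecMulVec, Matrix.vecMulVec_mul, Matrix.star_mulVec]

theorem amb_E (hp : p ≠ 2) (v : ZMod p × ZMod p) (f : ZMod p → ℂ) (w : ZMod p × ZMod p) :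
    amb (E v *ᵥ f) w = ψ (-ω v w) * amb f w := by
  have h2 := two_hf hp
  rw [amb, P_conj hp, Matrix.mul_assoc, Matrix.mul_assoc, Matrix.trace_mul_comm,
    Matrix.mul_assoc]
  have : E (-v) * E w * E v = ψ (-ω v w) • E w := by
    rw [E_mul hp, Matrix.smul_mul, E_mul hp, smul_smul, ← ψ_add]
    have e1 : -v + w + v = w := by abel
    rw [e1]
    congr 2
    simp only [ω, Prod.fst_neg, Prod.snd_neg, Prod.fst_add, Prod.snd_add]
    linear_combination (-(v.1 * w.2) + w.1 * v.2) * h2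
  rw [this, Matrix.mul_smul, Matrix.trace_smul, smul_eq_mul, amb]

/-- sum over all translates of the cubes. -/
theorem sum_translates (hp : p ≠ 2) (g f : ZMod p → ℂ) :
    (p : ℂ) * ∑ v : ZMod p × ZMod p, (P (E v *ᵥ g) * P f).trace ^ 3 =
      ∑ u : ZMod p × ZMod p, ∑ v : ZMod p × ZMod p,
        (amb g u * amb g v * amb g (-(u + v))) * (amb f (-u) * amb f (-v) * amb f (u + v)) := by
  have hp0 : (p : ℂ) ≠ 0 := by
    have := (Fact.out (p := p.Prime)).pos
    exact_mod_cast this.ne'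
  have h1 : ∀ v : ZMod p × ZMod p, (p : ℂ) ^ 3 * (P (E v *ᵥ g) * P f).trace ^ 3 =
      ∑ w₁ : ZMod p × ZMod p, ∑ w₂ : ZMod p × ZMod p, ∑ w₃ : ZMod p × ZMod p,
        (amb g w₁ * amb g w₂ * amb g w₃) * (amb f (-w₁) * amb f (-w₂) * amb f (-w₃)) *
          ψ (-ω v (w₁ + w₂ + w₃)) := by
    intro v
    have : (p : ℂ) ^ 3 * (P (E v *ᵥ g) * P f).trace ^ 3 =
        ((p : ℂ) * (P (E v *ᵥ g) * P f).trace) * ((p : ℂ) * (P (E v *ᵥ g) * P f).trace) *
          ((p : ℂ) * (P (E v *ᵥ g) * P f).trace) := by ring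
    rw [this, trace_PP_amb hp, Finset.sum_mul_sum, Finset.sum_mul]
    apply Finset.sum_congr rfl
    intro w₁ _
    rw [Finset.sum_mul]
    apply Finset.sum_congr rfl
    intro w₂ _
    rw [Finset.mul_sum]
    apply Finset.sum_congr rfl
    intro w₃ _
    rw [amb_E hp, amb_E hp, amb_E hp]
    have : ψ (-ω v (w₁ + w₂ + w₃)) = ψ (-ω v w₁) * ψ (-ω v w₂) * ψ (-ω v w₃) := by
      rw [← ψ_add, ← ψ_add]; congr 1; simp only [ω, Prod.fst_add, Prod.snd_add]; ring
    rw [this]; ring
  have h2 : (p : ℂ) ^ 3 * ∑ v : ZMod p × ZMod p, (P (E v *ᵥ g) * P f).trace ^ 3 =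
      (p : ℂ) ^ 2 * ∑ u : ZMod p × ZMod p, ∑ v : ZMod p × ZMod p,
        (amb g u * amb g v * amb g (-(u + v))) * (amb f (-u) * amb f (-v) * amb f (u + v)) := by
    rw [Finset.mul_sum]
    simp_rw [h1]
    rw [Finset.sum_comm, Finset.mul_sum]
    apply Finset.sum_congr rfl
    intro w₁ _
    rw [Finset.sum_comm, Finset.mul_sum]
    apply Finset.sum_congr rfl
    intro w₂ _
    rw [Finset.sum_comm]
    simp_rw [← Finset.mul_sum, sum_ψω]
    rw [Finset.sum_eq_single (-(w₁ + w₂))]
    · rw [if_pos (by abel), neg_neg]; ring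
    · intro w _ hw
      rw [if_neg, mul_zero]
      intro h; apply hw; rw [eq_neg_iff_add_eq_zero, add_comm]; exact h
    · intro h; exact absurd (Finset.mem_univ _) h
  have h3 : (p : ℂ) ^ 2 * ((p : ℂ) * ∑ v : ZMod p × ZMod p, (P (E v *ᵥ g) * P f).trace ^ 3) =
      (p : ℂ) ^ 2 * ∑ u : ZMod p × ZMod p, ∑ v : ZMod p × ZMod p,
        (amb g u * amb g v * amb g (-(u + v))) * (amb f (-u) * amb f (-v) * amb f (u + v)) := by
    rw [← h2]; ring
  exact mul_left_cancel₀ (pow_ne_zero 2 hp0) h3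

end Pool.Agent.MP_a2be38_co
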