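import Pool.Agent.Lib.MP_a2be38_co.Sphere

/-!
# Sixth (`2t`-th) powers of linear forms determine all polynomials of degree `≤ 2t+1`
-/

set_option autoImplicit false

namespace Pool.Agent.MP_a2be38_co

open MeasureTheory Metric Finset

variable {d : ℕ}

/-- evaluation at a point of euclidean space -/
noncomputable def ev (x : Eu d) (P : MvPolynomial (Fin d) ℝ) : ℝ :=
  MvPolynomial.eval (fun j => WithLp.ofLp x j) P

theorem ev_continuous (P : MvPolynomial (Fin d) ℝ) : Continuous fun y : Sp d => ev (y : Eu d) P := by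
  have h1 : Continuous fun z : Fin d → ℝ => MvPolynomial.eval z P := MvPolynomial.continuous_eval P
  have h2 : Continuous fun y : Sp d => (WithLp.ofLp (y : Eu d) : Fin d → ℝ) :=
    (PiLp.continuous_ofLp 2 _).comp continuous_subtype_val
  exact h1.comp h2

variable {ι : Type} [Fintype ι] (x : ι → Sp d) (w : ι → ℝ)

/-- the error functional -/
noncomputable def Lam : MvPolynomial (Fin d) ℝ →ₗ[ℝ] ℝ where
  toFun P := ∑ i, w i * ev (x i : Eu d) P - ∫ y, ev (y : Eu d) P ∂(mu d)
  map_add' P R := by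
    have h : ∀ y : Eu d, ev y (P + R) = ev y P + ev y R := fun y => by simp [ev]
    simp_rw [h]
    rw [integral_add (integrable_cont (ev_continuous P)) (integrable_cont (ev_continuous R))]
    simp_rw [mul_add, Finset.sum_add_distrib]
    ring
  map_smul' c P := by
    have h : ∀ y : Eu d, ev y (c • P) = c * ev y P := fun y => by simp [ev]
    simp_rw [h]
    rw [integral_const_mul]
    simp_rw [mul_left_comm _ c, ← Finset.mul_sum]
    simp only [RingHom.id_apply, smul_eq_mul]
    ring

theorem Lam_apply (P : MvPolynomial (Fin d) ℝ) :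
    Lam x w P = ∑ i, w i * ev (x i : Eu d) P - ∫ y, ev (y : Eu d) P ∂(mu d) := rfl

theorem ev_monomial (y : Eu d) (s : Fin d →₀ ℕ) :
    ev y (MvPolynomial.monomial s 1) = ∏ j, (WithLp.ofLp y j) ^ s j := by
  rw [ev, MvPolynomial.eval_monomial, one_mul, Finsupp.prod_fintype]
  intro i; simp

theorem inner_pow (y g : Eu d) (n : ℕ) :
    (inner ℝ y g) ^ n = ∑ k ∈ piAntidiag (univ : Finset (Fin d)) n,
      (Nat.multinomial univ k : ℝ) * (∏ j, (WithLp.ofLp g j) ^ k j) *
        ev y (MvPolynomial.monomial (Finsupp.equivFunOnFinite.symm k) 1) := by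
  have : inner ℝ y g = ∑ j, WithLp.ofLp g j * WithLp.ofLp y j := by
    rw [PiLp.inner_apply]
    exact Finset.sum_congr rfl fun j _ => by simp
  rw [this, Finset.sum_pow_eq_sum_piAntidiag]
  apply Finset.sum_congr rfl
  intro k _
  rw [ev_monomial, mul_assoc, ← Finset.prod_mul_distrib]
  congr 1
  apply Finset.prod_congr rfl
  intro j _
  rw [mul_pow]; rfl

/-- the functional vanishes on top degree monomials -/
theorem Lam_top {n : ℕ} (h : ∀ g : Eu d, ∑ i, w i * (inner ℝ (x i : Eu d) g) ^ n =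
      ∫ y, (inner ℝ (y : Eu d) g) ^ n ∂(mu d)) (s : Fin d →₀ ℕ) (hs : ∑ j, s j = n) :
    Lam x w (MvPolynomial.monomial s 1) = 0 := by
  classical
  set Ψ : MvPolynomial (Fin d) ℝ := ∑ k ∈ piAntidiag (univ : Finset (Fin d)) n,
    MvPolynomial.monomial (Finsupp.equivFunOnFinite.symm k)
      ((Nat.multinomial univ k : ℝ) *
        Lam x w (MvPolynomial.monomial (Finsupp.equivFunOnFinite.symm k) 1)) with hΨ
  have h0 : Ψ = 0 := by
    apply MvPolynomial.funext
    intro z
    rw [hΨ, map_sum, map_zero]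
    have h1 := h (WithLp.toLp 2 z)
    simp_rw [inner_pow] at h1
    rw [integral_finset_sum _ (fun k _ => (integrable_cont (ev_continuous _)).const_mul _)] at h1
    simp_rw [integral_const_mul, Finset.mul_sum] at h1
    rw [Finset.sum_comm, ← sub_eq_zero, ← Finset.sum_sub_distrib] at h1
    rw [← h1]
    apply Finset.sum_congr rfl
    intro k _
    rw [MvPolynomial.eval_monomial, Lam_apply, Finsupp.prod_fintype _ _ (fun i => by simp)]
    have e : (∏ i, z i ^ (Finsupp.equivFunOnFinite.symm k) i) = ∏ j, z j ^ k j := rfl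
    rw [e]
    have e2 : ∀ i, w i * ((Nat.multinomial univ k : ℝ) * (∏ j, z j ^ k j) *
        ev (x i : Eu d) (MvPolynomial.monomial (Finsupp.equivFunOnFinite.symm k) 1)) =
        ((Nat.multinomial univ k : ℝ) * (∏ j, z j ^ k j)) *
        (w i * ev (x i : Eu d) (MvPolynomial.monomial (Finsupp.equivFunOnFinite.symm k) 1)) := by
      intro i; ring
    simp_rw [e2, ← Finset.mul_sum]
    ring
  have hk : (s : Fin d → ℕ) ∈ piAntidiag (univ : Finset (Fin d)) n := by
    rw [mem_piAntidiag]; exact ⟨hs, fun i _ => Finset.mem_univ i⟩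
  have h2 : MvPolynomial.coeff s Ψ = 0 := by rw [h0]; simp
  rw [hΨ, MvPolynomial.coeff_sum, Finset.sum_eq_single (s : Fin d → ℕ)] at h2
  · rw [MvPolynomial.coeff_monomial, if_pos (by simp)] at h2
    have hm : (Nat.multinomial univ (s : Fin d → ℕ) : ℝ) ≠ 0 := by
      exact_mod_cast (Nat.multinomial_pos _ _).ne'
    have h3 := (mul_eq_zero.1 h2).resolve_left hm
    simpa using h3
  · intro k _ hk'
    rw [MvPolynomial.coeff_monomial, if_neg]
    intro h'; apply hk'; rw [← h']; rfl
  · intro h'; exact absurd hk h'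

theorem ev_mul_sq (y : Sp d) (P : MvPolynomial (Fin d) ℝ) :
    ev (y : Eu d) (P * ∑ j, MvPolynomial.X j ^ 2) = ev (y : Eu d) P := by
  have : ∑ j, (WithLp.ofLp (y : Eu d) j) ^ 2 = 1 := by
    have h := y.2
    rw [mem_sphere_zero_iff_norm] at h
    have h2 := EuclideanSpace.real_norm_sq_eq (y : Eu d)
    rw [h] at h2
    rw [← h2]; norm_num
  simp [ev, this]

theorem Lam_mul_sq (P : MvPolynomial (Fin d) ℝ) :
    Lam x w (P * ∑ j, MvPolynomial.X j ^ 2) = Lam x w P := by
  simp_rw [Lam_apply, ev_mul_sq]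

/-- the functional vanishes on lower monomials of the same parity -/
theorem Lam_even {n : ℕ} (h : ∀ g : Eu d, ∑ i, w i * (inner ℝ (x i : Eu d) g) ^ n =
      ∫ y, (inner ℝ (y : Eu d) g) ^ n ∂(mu d)) (k : ℕ) :
    ∀ s : Fin d →₀ ℕ, (∑ j, s j) + 2 * k = n → Lam x w (MvPolynomial.monomial s 1) = 0 := by
  induction k with
  | zero => intro s hs; exact Lam_top x w h s (by simpa using hs)
  | succ k ih =>
    intro s hs
    rw [← Lam_mul_sq, Finset.mul_sum, map_sum]
    apply Finset.sum_eq_zero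
    intro j _
    have : MvPolynomial.monomial s (1 : ℝ) * MvPolynomial.X j ^ 2 =
        MvPolynomial.monomial (s + Finsupp.single j 2) 1 := by
      rw [MvPolynomial.X_pow_eq_monomial, MvPolynomial.monomial_mul, one_mul]
    rw [this]
    apply ih
    simp only [Finsupp.add_apply, Finset.sum_add_distrib]
    have : ∑ i, (Finsupp.single j 2 : Fin d →₀ ℕ) i = 2 := by
      rw [Finset.sum_eq_single j]
      · simp
      · intro i _ hi; simp [Finsupp.single_apply, hi.symm]
      · intro h; exact absurd (Finset.mem_univ _) h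
    rw [this]; omega

theorem ev_neg (y : Eu d) (s : Fin d →₀ ℕ) (hs : Odd (∑ j, s j)) :
    ev (-y) (MvPolynomial.monomial s 1) = - ev y (MvPolynomial.monomial s 1) := by
  rw [ev_monomial, ev_monomial]
  have : ∀ j, (WithLp.ofLp (-y) j) ^ s j = (-1) ^ s j * (WithLp.ofLp y j) ^ s j := by
    intro j
    rw [← mul_pow]; simp
  simp_rw [this]
  rw [Finset.prod_mul_distrib, Finset.prod_pow_eq_pow_sum, hs.neg_one_pow]
  ring

/-- the functional vanishes on odd monomials for antipodal families -/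
theorem Lam_odd (σ : ι ≃ ι) (hx : ∀ i, (x (σ i) : Eu d) = -(x i : Eu d)) (hw : ∀ i, w (σ i) = w i)
    (s : Fin d →₀ ℕ) (hs : Odd (∑ j, s j)) : Lam x w (MvPolynomial.monomial s 1) = 0 := by
  have h1 : ∑ i, w i * ev (x i : Eu d) (MvPolynomial.monomial s 1) = 0 := by
    have : ∑ i, w i * ev (x i : Eu d) (MvPolynomial.monomial s 1) =
        - ∑ i, w i * ev (x i : Eu d) (MvPolynomial.monomial s 1) := by
      nth_rewrite 1 [← Equiv.sum_comp σ]
      rw [← Finset.sum_neg_distrib]
      apply Finset.sum_congr rfl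
      intro i _
      rw [hx, hw, ev_neg _ _ hs]; ring
    linarith
  have h2 : ∫ y, ev (y : Eu d) (MvPolynomial.monomial s 1) ∂(mu d) = 0 := by
    have h3 := integral_act (LinearIsometryEquiv.neg ℝ (E := Eu d))
      (fun y => ev (y : Eu d) (MvPolynomial.monomial s 1))
    have h4 : ∀ y : Sp d, ev ((act (LinearIsometryEquiv.neg ℝ (E := Eu d)) y : Sp d) : Eu d)
        (MvPolynomial.monomial s 1) = - ev (y : Eu d) (MvPolynomial.monomial s 1) := by
      intro y
      exact ev_neg _ _ hs
    simp_rw [h4] at h3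
    rw [integral_neg] at h3
    linarith
  rw [Lam_apply, h1, h2, sub_zero]

/-- all polynomials of degree at most `2t+1` -/
theorem Lam_all {t : ℕ} (h : ∀ g : Eu d, ∑ i, w i * (inner ℝ (x i : Eu d) g) ^ (2 * t) =
      ∫ y, (inner ℝ (y : Eu d) g) ^ (2 * t) ∂(mu d)) (σ : ι ≃ ι)
    (hx : ∀ i, (x (σ i) : Eu d) = -(x i : Eu d)) (hw : ∀ i, w (σ i) = w i)
    (P : MvPolynomial (Fin d) ℝ) (hP : P.totalDegree ≤ 2 * t + 1) : Lam x w P = 0 := by
  rw [P.as_sum, map_sum]
  apply Finset.sum_eq_zero
  intro s hs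
  have hm : MvPolynomial.monomial s (MvPolynomial.coeff s P) =
      MvPolynomial.coeff s P • MvPolynomial.monomial s (1 : ℝ) := by
    rw [MvPolynomial.smul_monomial, smul_eq_mul, mul_one]
  rw [hm, map_smul]
  have hdeg : ∑ j, s j ≤ 2 * t + 1 := by
    have := MvPolynomial.le_totalDegree hs
    rw [Finsupp.sum_fintype _ _ (fun _ => rfl)] at this
    omega
  rcases Nat.even_or_odd (∑ j, s j) with he | ho
  · obtain ⟨m, hm'⟩ := he
    rw [Lam_even x w h (t - m) s (by omega), smul_zero]
  · rw [Lam_odd x w σ hx hw s ho, smul_zero]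

end Pool.Agent.MP_a2be38_co
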