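import Pool.Agent.Lib.MP_a2be38_co.Torus

/-!
# The line states and the sixth moment identity over `ℂ`
-/

set_option autoImplicit false

namespace Pool.Agent.MP_a2be38_co

open Finset Matrix

variable {p : ℕ} [Fact p.Prime]

theorem amb_eq (f : ZMod p → ℂ) (w : ZMod p × ZMod p) :
    amb f w = ∑ y, f (y + w.1) * star (f y) * ψ (w.2 * y + hf * w.1 * w.2) := by
  rw [amb, Matrix.trace]
  simp only [Matrix.diag_apply, Matrix.mul_apply, E_apply, P, Matrix.vecMulVec_apply,
    Pi.star_apply]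
  rw [Finset.sum_comm]
  apply Finset.sum_congr rfl
  intro y _
  rw [Finset.sum_eq_single (y + w.1)]
  · rw [if_pos rfl]
  · intro b _ hb; rw [if_neg hb, mul_zero]
  · intro h; exact absurd (Finset.mem_univ _) h

/-- the line states (unnormalised for `some c`) -/
noncomputable def line : Option (ZMod p) → (ZMod p → ℂ)
  | none => fun x => if x = 0 then 1 else 0
  | some c => fun x => (((Real.sqrt p)⁻¹ : ℝ) : ℂ) * ψ (-(hf * c * x ^ 2))

/-- membership in the line -/
def onLine : Option (ZMod p) → (ZMod p × ZMod p) → Prop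
  | none, w => w.1 = 0
  | some c, w => w.2 = c * w.1

instance (l : Option (ZMod p)) (w : ZMod p × ZMod p) : Decidable (onLine l w) := by
  cases l <;> unfold onLine <;> infer_instance

theorem amb_line (hp : p ≠ 2) (l : Option (ZMod p)) (w : ZMod p × ZMod p) :
    amb (line l) w = if onLine l w then 1 else 0 := by
  have h2 := two_hf hp
  have hp0 : (p : ℂ) ≠ 0 := by
    have := (Fact.out (p := p.Prime)).pos
    exact_mod_cast this.ne'
  rw [amb_eq]
  cases l with
  | none =>
    simp only [line, onLine]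
    rw [Finset.sum_eq_single 0]
    · by_cases h : w.1 = 0
      · simp [h]
      · simp [h]
    · intro y _ hy; simp [hy]
    · intro h; exact absurd (Finset.mem_univ _) h
  | some c =>
    simp only [line, onLine]
    have hs : (((Real.sqrt p)⁻¹ : ℝ) : ℂ) * (((Real.sqrt p)⁻¹ : ℝ) : ℂ) = (p : ℂ)⁻¹ := by
      rw [← Complex.ofReal_mul, ← mul_inv, Real.mul_self_sqrt (Nat.cast_nonneg p)]
      push_cast; rfl
    have hstar : star (((Real.sqrt p)⁻¹ : ℝ) : ℂ) = (((Real.sqrt p)⁻¹ : ℝ) : ℂ) :=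
      Complex.conj_ofReal _
    have : ∀ y : ZMod p, (((Real.sqrt p)⁻¹ : ℝ) : ℂ) * ψ (-(hf * c * (y + w.1) ^ 2)) *
        star ((((Real.sqrt p)⁻¹ : ℝ) : ℂ) * ψ (-(hf * c * y ^ 2))) *
        ψ (w.2 * y + hf * w.1 * w.2) =
        ((p : ℂ)⁻¹ * ψ (hf * w.1 * (w.2 - c * w.1))) * ψ ((w.2 - c * w.1) * y) := by
      intro y
      rw [star_mul', hstar, ψ_neg]
      have e : (((Real.sqrt p)⁻¹ : ℝ) : ℂ) * ψ (-(hf * c * (y + w.1) ^ 2)) *
        ((((Real.sqrt p)⁻¹ : ℝ) : ℂ) * ψ (-(-(hf * c * y ^ 2)))) *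
        ψ (w.2 * y + hf * w.1 * w.2) = ((((Real.sqrt p)⁻¹ : ℝ) : ℂ) * (((Real.sqrt p)⁻¹ : ℝ) : ℂ)) *
          (ψ (-(hf * c * (y + w.1) ^ 2)) * ψ (-(-(hf * c * y ^ 2))) *
            ψ (w.2 * y + hf * w.1 * w.2)) := by ring
      rw [e, hs, ← ψ_add, ← ψ_add, mul_assoc (p : ℂ)⁻¹, ← ψ_add]
      congr 2
      linear_combination (-(c * w.1 * y)) * h2
    simp_rw [this, ← Finset.mul_sum, sum_ψ]
    by_cases h : w.2 = c * w.1
    · rw [if_pos (sub_eq_zero.2 h), if_pos h, h, sub_self, mul_zero, ψ_zero, mul_one,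
        inv_mul_cancel₀ hp0]
    · rw [if_neg (sub_ne_zero.2 h), if_neg h, mul_zero]

/-- every pair of vectors with `ω = 0` lies on exactly one common line (all lines if both are `0`). -/
theorem count_lines (u v : ZMod p × ZMod p) :
    (∑ l : Option (ZMod p), (if onLine l u ∧ onLine l v then (1 : ℂ) else 0)) =
      (if ω u v = 0 then 1 else 0) + (p : ℂ) * (if u = 0 ∧ v = 0 then 1 else 0) := by
  rw [Fintype.sum_option]
  simp only [onLine]
  by_cases hu : u.1 = 0
  · by_cases hv : v.1 = 0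
    · -- both vertical
      have hω : ω u v = 0 := by simp [ω, hu, hv]
      simp only [hu, hv, hω, mul_zero, and_self, if_true]
      congr 1
      by_cases h : u.2 = 0 ∧ v.2 = 0
      · have : u = 0 ∧ v = 0 := ⟨Prod.ext hu h.1, Prod.ext hv h.2⟩
        rw [if_pos this]
        simp [h.1, h.2]
      · have : ¬ (u = 0 ∧ v = 0) := fun h' => h ⟨by simp [h'.1], by simp [h'.2]⟩
        rw [if_neg this]
        simp [h]
    · have h0 : ¬ (u = 0 ∧ v = 0) := fun h' => hv (by simp [h'.2])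
      rw [if_neg h0, if_neg (fun h => hv h.2)]
      simp only [hu, mul_zero, zero_add, add_zero]
      rw [Finset.sum_eq_single (v.2 / v.1)]
      · have : v.2 = v.2 / v.1 * v.1 := by field_simp
        by_cases h : u.2 = 0
        · rw [if_pos ⟨h, this⟩, if_pos]
          simp [ω, hu, h]
        · rw [if_neg (fun h' => h h'.1), if_neg]
          intro h'
          simp only [ω, hu, zero_mul, zero_sub, neg_eq_zero] at h'
          exact (mul_ne_zero hv h) h'
      · intro c _ hc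
        rw [if_neg]
        rintro ⟨-, h⟩
        apply hc
        rw [h]; field_simp
      · intro h; exact absurd (Finset.mem_univ _) h
  · have h0 : ¬ (u = 0 ∧ v = 0) := fun h' => hu (by simp [h'.1])
    rw [if_neg h0, if_neg (fun h => hu h.1), zero_add, mul_zero, add_zero]
    rw [Finset.sum_eq_single (u.2 / u.1)]
    · have h1 : u.2 = u.2 / u.1 * u.1 := by field_simp
      have : (u.2 = u.2 / u.1 * u.1 ∧ v.2 = u.2 / u.1 * v.1) ↔ ω u v = 0 := by
        constructor
        · rintro ⟨-, h⟩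
          simp only [ω]; rw [h]; field_simp; ring
        · intro h
          refine ⟨h1, ?_⟩
          simp only [ω] at h
          field_simp
          linear_combination h
      by_cases h : ω u v = 0
      · rw [if_pos h, if_pos (this.2 h)]
      · rw [if_neg h, if_neg (fun h' => h (this.1 h'))]
    · intro c _ hc
      rw [if_neg]
      rintro ⟨h, -⟩
      apply hc
      rw [h]; field_simp
    · intro h; exact absurd (Finset.mem_univ _) h

theorem onLine_neg_add (l : Option (ZMod p)) (u v : ZMod p × ZMod p) (hu : onLine l u)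
    (hv : onLine l v) : onLine l (-(u + v)) := by
  cases l with
  | none => simp only [onLine, Prod.fst_neg, Prod.fst_add] at *; rw [hu, hv]; simp
  | some c =>
    simp only [onLine, Prod.fst_neg, Prod.fst_add, Prod.snd_neg, Prod.snd_add] at *
    rw [hu, hv]; ring

/-- the cubic monomial in the ambiguity function -/
noncomputable def G (f : ZMod p → ℂ) (u v : ZMod p × ZMod p) : ℂ :=
  amb f (-u) * amb f (-v) * amb f (u + v)

noncomputable def Z (f : ZMod p → ℂ) : ℂ :=
  ∑ u : ZMod p × ZMod p, ∑ v : ZMod p × ZMod p, (if ω u v = 0 then 1 else 0) * G f u v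

theorem sum_G_zero (f : ZMod p → ℂ) :
    ∑ u : ZMod p × ZMod p, ∑ v : ZMod p × ZMod p, (if u = 0 ∧ v = 0 then 1 else 0) * G f u v =
      nsq f ^ 3 := by
  rw [Finset.sum_eq_single 0, Finset.sum_eq_single 0]
  · simp only [and_self, if_true, G, neg_zero, add_zero, amb_zero]; ring
  · intro v _ hv; simp [hv]
  · intro h; exact absurd (Finset.mem_univ _) h
  · intro u _ hu; apply Finset.sum_eq_zero; intro v _; simp [hu]
  · intro h; exact absurd (Finset.mem_univ _) h

theorem sum_G_left (hp : p ≠ 2) (f : ZMod p → ℂ) :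
    ∑ u : ZMod p × ZMod p, ∑ v : ZMod p × ZMod p, (if u = 0 then 1 else 0) * G f u v =
      (p : ℂ) * nsq f ^ 3 := by
  rw [Finset.sum_eq_single 0]
  · simp only [if_true, G, neg_zero, zero_add, amb_zero, one_mul]
    have := sum_amb_sq hp f
    calc ∑ v : ZMod p × ZMod p, nsq f * amb f (-v) * amb f v =
        nsq f * ∑ v : ZMod p × ZMod p, amb f v * amb f (-v) := by
          rw [Finset.mul_sum]; exact Finset.sum_congr rfl fun v _ => by ring
      _ = _ := by rw [this]; ring
  · intro u _ hu; apply Finset.sum_eq_zero; intro v _; simp [hu]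
  · intro h; exact absurd (Finset.mem_univ _) h

theorem G_comm (f : ZMod p → ℂ) (u v : ZMod p × ZMod p) : G f u v = G f v u := by
  rw [G, G, add_comm u v]; ring

theorem sum_G_right (hp : p ≠ 2) (f : ZMod p → ℂ) :
    ∑ u : ZMod p × ZMod p, ∑ v : ZMod p × ZMod p, (if v = 0 then 1 else 0) * G f u v =
      (p : ℂ) * nsq f ^ 3 := by
  rw [Finset.sum_comm, ← sum_G_left hp f]
  apply Finset.sum_congr rfl; intro u _
  apply Finset.sum_congr rfl; intro v _
  rw [G_comm]

theorem sum_G_add (hp : p ≠ 2) (f : ZMod p → ℂ) :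
    ∑ u : ZMod p × ZMod p, ∑ v : ZMod p × ZMod p, (if u + v = 0 then 1 else 0) * G f u v =
      (p : ℂ) * nsq f ^ 3 := by
  have : ∀ u : ZMod p × ZMod p, ∑ v : ZMod p × ZMod p, (if u + v = 0 then 1 else 0) * G f u v =
      nsq f * (amb f u * amb f (-u)) := by
    intro u
    rw [Finset.sum_eq_single (-u)]
    · simp only [add_neg_cancel, if_true, G, neg_neg, amb_zero]; ring
    · intro v _ hv
      rw [if_neg, zero_mul]
      intro h; exact hv (eq_neg_of_add_eq_zero_right h)
    · intro h; exact absurd (Finset.mem_univ _) h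
  simp_rw [this, ← Finset.mul_sum, sum_amb_sq hp]
  ring

theorem sum_G_plus (hp : p ≠ 2) (f : ZMod p → ℂ) :
    ∑ u : ZMod p × ZMod p, ∑ v : ZMod p × ZMod p, ψ (hf * ω u v) * G f u v =
      (p : ℂ) ^ 2 * nsq f ^ 3 := by
  rw [← sum_amb_cube hp f, ← Equiv.sum_comp (Equiv.neg (ZMod p × ZMod p))]
  apply Finset.sum_congr rfl; intro u _
  rw [← Equiv.sum_comp (Equiv.neg (ZMod p × ZMod p))]
  apply Finset.sum_congr rfl; intro v _
  simp only [Equiv.neg_apply, G, neg_neg]
  have h1 : ω (-u) (-v) = ω u v := by simp only [ω, Prod.fst_neg, Prod.snd_neg]; ring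
  have h2 : -u + -v = -(u + v) := by abel
  rw [h1, h2]

theorem sum_G_minus (hp : p ≠ 2) (f : ZMod p → ℂ) :
    ∑ u : ZMod p × ZMod p, ∑ v : ZMod p × ZMod p, ψ (-(hf * ω u v)) * G f u v =
      (p : ℂ) ^ 2 * nsq f ^ 3 := by
  rw [Finset.sum_comm, ← sum_G_plus hp f]
  apply Finset.sum_congr rfl; intro u _
  apply Finset.sum_congr rfl; intro v _
  have : -(hf * ω v u) = hf * ω u v := by simp only [ω]; ring
  rw [G_comm, this]

/-- sixth moments of the torus family -/
theorem torus_moment (hp : p ≠ 2) {δ : ZMod p} (hδ : ¬ IsSquare δ) :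
    ∃ b : Fin p → (ZMod p → ℂ), ∀ f : ZMod p → ℂ, ((p : ℂ) + 1) ^ 2 *
      ∑ v : ZMod p × ZMod p, ∑ j, (P (E v *ᵥ b j) * P f).trace ^ 3 =
      (6 * (p : ℂ) ^ 2 - p) * nsq f ^ 3 - Z f := by
  have hp0 : (p : ℂ) ≠ 0 := by
    have := (Fact.out (p := p.Prime)).pos
    exact_mod_cast this.ne'
  obtain ⟨b, hb⟩ := exists_torus_basis hp hδ
  refine ⟨fun j => (b j).ofLp, fun f => ?_⟩
  apply mul_left_cancel₀ hp0
  have h1 : (p : ℂ) * ∑ v : ZMod p × ZMod p, ∑ j, (P (E v *ᵥ (b j).ofLp) * P f).trace ^ 3 =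
      ∑ u : ZMod p × ZMod p, ∑ v : ZMod p × ZMod p,
        (∑ j, amb (b j).ofLp u * amb (b j).ofLp v * amb (b j).ofLp (-(u + v))) * G f u v := by
    rw [Finset.sum_comm, Finset.mul_sum]
    simp_rw [sum_translates hp]
    rw [Finset.sum_comm]
    apply Finset.sum_congr rfl; intro u _
    rw [Finset.sum_comm]
    apply Finset.sum_congr rfl; intro v _
    rw [Finset.sum_mul]
    rfl
  have h2 : (p : ℂ) * (((p : ℂ) + 1) ^ 2 *
      ∑ v : ZMod p × ZMod p, ∑ j, (P (E v *ᵥ (b j).ofLp) * P f).trace ^ 3) =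
      ∑ u : ZMod p × ZMod p, ∑ v : ZMod p × ZMod p,
        ((p : ℂ) * (W (ω u v) + (p : ℂ) * ((if u = 0 then 1 else 0) + (if v = 0 then 1 else 0) +
          (if u + v = 0 then 1 else 0)) +
            ((p : ℂ) ^ 2 - p) * (if u = 0 ∧ v = 0 then 1 else 0))) * G f u v := by
    rw [mul_left_comm, h1, Finset.mul_sum]
    apply Finset.sum_congr rfl; intro u _
    rw [Finset.mul_sum]
    apply Finset.sum_congr rfl; intro v _
    rw [← hb u v]; ring
  rw [h2]
  have h3 : ∀ u v : ZMod p × ZMod p,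
      ((p : ℂ) * (W (ω u v) + (p : ℂ) * ((if u = 0 then 1 else 0) + (if v = 0 then 1 else 0) +
          (if u + v = 0 then 1 else 0)) +
            ((p : ℂ) ^ 2 - p) * (if u = 0 ∧ v = 0 then 1 else 0))) * G f u v =
      (p : ℂ) * (ψ (hf * ω u v) * G f u v + ψ (-(hf * ω u v)) * G f u v -
        (if ω u v = 0 then 1 else 0) * G f u v) + (p : ℂ) ^ 2 *
        ((if u = 0 then 1 else 0) * G f u v + (if v = 0 then 1 else 0) * G f u v +
          (if u + v = 0 then 1 else 0) * G f u v) +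
        (p : ℂ) * ((p : ℂ) ^ 2 - p) * ((if u = 0 ∧ v = 0 then 1 else 0) * G f u v) := by
    intro u v; rw [W]; ring
  simp_rw [h3, Finset.sum_add_distrib, ← Finset.mul_sum, Finset.sum_add_distrib,
    Finset.sum_sub_distrib, Finset.sum_add_distrib]
  rw [sum_G_plus hp, sum_G_minus hp, sum_G_left hp, sum_G_right hp, sum_G_add hp, sum_G_zero]
  rw [Z]
  ring

/-- sixth moments of the line family -/
theorem line_moment (hp : p ≠ 2) (f : ZMod p → ℂ) :
    (p : ℂ) * ∑ v : ZMod p × ZMod p, ∑ l : Option (ZMod p),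
      (P (E v *ᵥ line l) * P f).trace ^ 3 = Z f + (p : ℂ) * nsq f ^ 3 := by
  rw [Finset.sum_comm, Finset.mul_sum]
  simp_rw [sum_translates hp, amb_line hp]
  rw [Finset.sum_comm, ← sum_G_zero f, Finset.mul_sum, Z, ← Finset.sum_add_distrib]
  apply Finset.sum_congr rfl; intro u _
  rw [Finset.sum_comm, Finset.mul_sum, ← Finset.sum_add_distrib]
  apply Finset.sum_congr rfl; intro v _
  have : ∀ l : Option (ZMod p), ((if onLine l u then (1 : ℂ) else 0) * (if onLine l v then 1 else 0) *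
      (if onLine l (-(u + v)) then 1 else 0)) * (amb f (-u) * amb f (-v) * amb f (u + v)) =
      (if onLine l u ∧ onLine l v then (1 : ℂ) else 0) * G f u v := by
    intro l
    by_cases h1 : onLine l u
    · by_cases h2 : onLine l v
      · rw [if_pos h1, if_pos h2, if_pos (onLine_neg_add l u v h1 h2), if_pos ⟨h1, h2⟩, G]; ring
      · have h3 : ¬ (onLine l u ∧ onLine l v) := fun h => h2 h.2
        rw [if_neg h2, if_neg h3]; ring
    · have h3 : ¬ (onLine l u ∧ onLine l v) := fun h => h1 h.1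
      rw [if_neg h1, if_neg h3]; ring
  simp_rw [this, ← Finset.sum_mul, count_lines]
  ring

theorem trace_real (g f : ZMod p → ℂ) :
    (P g * P f).trace = ((Complex.normSq (star g ⬝ᵥ f) : ℝ) : ℂ) := by
  rw [trace_PP, ← Complex.mul_conj]
  congr 1
  exact Matrix.star_dotProduct f g

theorem nsq_real (f : ZMod p → ℂ) :
    nsq f = ((∑ x, Complex.normSq (f x) : ℝ) : ℂ) := by
  rw [nsq, dotProduct]
  push_cast
  apply Finset.sum_congr rfl
  intro x _
  rw [← Complex.mul_conj, mul_comm]; rfl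

theorem exists_nonsquare (hp : p ≠ 2) : ∃ δ : ZMod p, ¬ IsSquare δ := by
  have : ringChar (ZMod p) ≠ 2 := by rwa [ZMod.ringChar_zmod_n]
  exact FiniteField.exists_nonsquare this

/-- the sixth moment identity over `ℂ` -/
theorem complex_family (hp : p ≠ 2) :
    ∃ (u : (ZMod p × ZMod p) × (Fin p ⊕ Option (ZMod p)) → ZMod p → ℂ)
      (c : (ZMod p × ZMod p) × (Fin p ⊕ Option (ZMod p)) → ℝ), (∀ i, 0 < c i) ∧
      ∀ f : ZMod p → ℂ, ∑ i, c i * Complex.normSq (star (u i) ⬝ᵥ f) ^ 3 =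
        (∑ x, Complex.normSq (f x)) ^ 3 := by
  obtain ⟨δ, hδ⟩ := exists_nonsquare hp
  obtain ⟨b, hb⟩ := torus_moment hp hδ
  have hpos : 0 < (p : ℝ) := by exact_mod_cast (Fact.out (p := p.Prime)).pos
  refine ⟨fun i => E i.1 *ᵥ (Sum.elim b line i.2),
    fun i => Sum.elim (fun _ => ((p : ℝ) + 1) ^ 2 / (6 * (p : ℝ) ^ 2))
      (fun _ => (p : ℝ) / (6 * (p : ℝ) ^ 2)) i.2, ?_, ?_⟩
  · rintro ⟨v, i | i⟩
    · simp only [Sum.elim_inl]; positivity
    · simp only [Sum.elim_inr]; positivity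
  · intro f
    have h1 := hb f
    have h2 := line_moment hp f
    simp_rw [trace_real, nsq_real] at h1 h2
    rw [Fintype.sum_prod_type]
    simp_rw [Fintype.sum_sum_type, Sum.elim_inl, Sum.elim_inr]
    have h3 : (((p : ℝ) + 1) ^ 2 * ∑ v : ZMod p × ZMod p, ∑ j : Fin p,
        Complex.normSq (star (E v *ᵥ b j) ⬝ᵥ f) ^ 3) +
        (p : ℝ) * ∑ v : ZMod p × ZMod p, ∑ l : Option (ZMod p),
          Complex.normSq (star (E v *ᵥ line l) ⬝ᵥ f) ^ 3 =
        6 * (p : ℝ) ^ 2 * (∑ x, Complex.normSq (f x)) ^ 3 := by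
      have : (((((p : ℝ) + 1) ^ 2 * ∑ v : ZMod p × ZMod p, ∑ j : Fin p,
        Complex.normSq (star (E v *ᵥ b j) ⬝ᵥ f) ^ 3) +
        (p : ℝ) * ∑ v : ZMod p × ZMod p, ∑ l : Option (ZMod p),
          Complex.normSq (star (E v *ᵥ line l) ⬝ᵥ f) ^ 3 : ℝ) : ℂ) =
        ((6 * (p : ℝ) ^ 2 * (∑ x, Complex.normSq (f x)) ^ 3 : ℝ) : ℂ) := by
        push_cast
        push_cast at h1 h2
        rw [h1, h2]; ring
      exact_mod_cast this
    have hne : (6 * (p : ℝ) ^ 2) ≠ 0 := by positivity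
    apply mul_left_cancel₀ hne
    rw [← h3, Finset.sum_add_distrib, mul_add]
    congr 1
    · simp_rw [← Finset.mul_sum]
      field_simp
    · simp_rw [← Finset.mul_sum]
      field_simp

end Pool.Agent.MP_a2be38_co
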