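import Pool.Agent.Lib.MP_a2be38_co.Mub
import Pool.Agent.Lib.MP_a2be38_co.Design

/-!
# Weighted spherical designs of strength `7` with `O(d^3)` points
-/

set_option autoImplicit false

namespace Pool.Agent.MP_a2be38_co

open MeasureTheory Metric Finset Matrix

/-- the four real vectors attached to a complex vector -/
noncomputable def four {p : ℕ} (u : ZMod p → ℂ) (a b : ℝ) : ZMod p ⊕ ZMod p → ℝ :=
  Sum.elim (fun x => a * (u x).re - b * (u x).im) (fun x => a * (u x).im + b * (u x).re)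

/-- the complex vector of a real one -/
noncomputable def cpl {p : ℕ} (g : ZMod p ⊕ ZMod p → ℝ) : ZMod p → ℂ :=
  fun x => ⟨g (Sum.inl x), g (Sum.inr x)⟩

theorem four_dot {p : ℕ} [Fact p.Prime] (u : ZMod p → ℂ) (a b : ℝ) (g : ZMod p ⊕ ZMod p → ℝ) :
    four u a b ⬝ᵥ g = a * (star u ⬝ᵥ cpl g).re + b * (star u ⬝ᵥ cpl g).im := by
  simp only [dotProduct, Fintype.sum_sum_type, four, Sum.elim_inl, Sum.elim_inr, Pi.star_apply,
    Complex.re_sum, Complex.im_sum, Finset.mul_sum, ← Finset.sum_add_distrib]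
  apply Finset.sum_congr rfl
  intro x _
  simp only [cpl, Complex.mul_re, Complex.mul_im, Complex.star_def, Complex.conj_re,
    Complex.conj_im]
  ring

theorem six_id (z : ℂ) : Complex.normSq z ^ 3 =
    (4 / 5) * (1 * z.re + 0 * z.im) ^ 6 + (4 / 5) * (0 * z.re + 1 * z.im) ^ 6 +
      (1 / 10) * (1 * z.re + 1 * z.im) ^ 6 + (1 / 10) * (1 * z.re + (-1) * z.im) ^ 6 := by
  rw [Complex.normSq_apply]; ring

/-- coefficients -/
noncomputable def cf : Fin 4 → ℝ := ![4 / 5, 4 / 5, 1 / 10, 1 / 10]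
noncomputable def af : Fin 4 → ℝ := ![1, 0, 1, 1]
noncomputable def bf : Fin 4 → ℝ := ![0, 1, 1, -1]

theorem cf_pos (i : Fin 4) : 0 < cf i := by
  fin_cases i <;> simp [cf]

theorem six_id' (z : ℂ) : Complex.normSq z ^ 3 =
    ∑ i : Fin 4, cf i * (af i * z.re + bf i * z.im) ^ 6 := by
  rw [six_id, Fin.sum_univ_four]
  simp [cf, af, bf]

theorem real_family (p : ℕ) [Fact p.Prime] (hp : p ≠ 2) (d : ℕ) (hd : d ≤ 2 * p) :
    ∃ (κ : Type) (_ : Fintype κ) (y : κ → Eu d) (c : κ → ℝ),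
      Fintype.card κ = 4 * (p ^ 2 * (2 * p + 1)) ∧ (∀ i, 0 < c i) ∧
      ∀ g : Eu d, ∑ i, c i * (inner ℝ (y i) g) ^ (2 * 3) = ‖g‖ ^ (2 * 3) := by
  obtain ⟨u, c, hc, h⟩ := complex_family (p := p) hp
  obtain ⟨e⟩ : Nonempty (Fin d ↪ ZMod p ⊕ ZMod p) := by
    apply Function.Embedding.nonempty_of_card_le
    rw [Fintype.card_fin, Fintype.card_sum, ZMod.card]; omega
  refine ⟨((ZMod p × ZMod p) × (Fin p ⊕ Option (ZMod p))) × Fin 4, inferInstance,
    fun i => WithLp.toLp 2 (fun k => four (u i.1) (af i.2) (bf i.2) (e k)),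
    fun i => c i.1 * cf i.2, ?_, ?_, ?_⟩
  · simp only [Fintype.card_prod, ZMod.card, Fintype.card_sum, Fintype.card_fin,
      Fintype.card_option]
    ring
  · intro i; exact mul_pos (hc _) (cf_pos _)
  · intro g
    set G : ZMod p ⊕ ZMod p → ℝ := Function.extend e (fun k => WithLp.ofLp g k) 0 with hG
    have hG1 : ∀ v : ZMod p ⊕ ZMod p → ℝ, ∑ k, v (e k) * WithLp.ofLp g k = v ⬝ᵥ G := by
      intro v
      rw [dotProduct]
      refine Fintype.sum_of_injective e e.injective _ _ ?_ ?_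
      · intro s hs
        rw [hG, Function.extend_apply' _ _ _ (by
          rintro ⟨k, hk⟩; exact hs ⟨k, hk⟩)]
        simp
      · intro k
        rw [hG, e.injective.extend_apply]
    have hG2 : ∑ x, Complex.normSq (cpl G x) = ‖g‖ ^ 2 := by
      rw [EuclideanSpace.real_norm_sq_eq]
      have : ∑ x, Complex.normSq (cpl G x) = ∑ s, G s ^ 2 := by
        rw [Fintype.sum_sum_type, ← Finset.sum_add_distrib]
        apply Finset.sum_congr rfl
        intro x _
        simp only [cpl, Complex.normSq_apply]; ring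
      rw [this]
      symm
      refine Fintype.sum_of_injective e e.injective _ _ ?_ ?_
      · intro s hs
        rw [hG, Function.extend_apply' _ _ _ (by
          rintro ⟨k, hk⟩; exact hs ⟨k, hk⟩)]
        simp
      · intro k
        rw [hG, e.injective.extend_apply]
    have h1 := h (cpl G)
    rw [hG2, ← pow_mul] at h1
    rw [← h1, Fintype.sum_prod_type]
    apply Finset.sum_congr rfl
    intro i _
    rw [six_id', Finset.mul_sum]
    apply Finset.sum_congr rfl
    intro k _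
    rw [mul_assoc, ← four_dot, ← hG1]
    congr 3
    rw [PiLp.inner_apply]
    apply Finset.sum_congr rfl
    intro j _
    simp [mul_comm]

/-- strength `7` weighted spherical designs with `O(d^3)` points -/
theorem six_designs : ∃ C : ℝ, ∀ d : ℕ, 1 ≤ d → ∃ N : ℕ, (N : ℝ) ≤ C * (d : ℝ) ^ 3 ∧
    HasDesign d 7 N := by
  refine ⟨1536, fun d hd => ?_⟩
  obtain ⟨p, hprime, h1, h2⟩ := Nat.exists_prime_lt_and_le_two_mul (d + 1) (by omega)
  haveI : Fact p.Prime := ⟨hprime⟩
  obtain ⟨κ, _, y, c, hcard, hc, h⟩ := real_family p (by omega) d (by omega)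
  obtain ⟨N, hN, hD⟩ := design_of_moment hd (t := 3) (by norm_num) y c hc h
  refine ⟨N, ?_, hD⟩
  rw [hcard] at hN
  have h3 : N ≤ 1536 * d ^ 3 := by
    have h4 : p ≤ 4 * d := by omega
    have h5 : p ^ 2 * (2 * p + 1) ≤ (4 * d) ^ 2 * (2 * (4 * d) + 4 * d) := by
      apply Nat.mul_le_mul
      · exact Nat.pow_le_pow_left h4 2
      · omega
    calc N ≤ 2 * (4 * (p ^ 2 * (2 * p + 1))) := hN
      _ ≤ 2 * (4 * ((4 * d) ^ 2 * (2 * (4 * d) + 4 * d))) := by omega
      _ = 1536 * d ^ 3 := by ring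
  exact_mod_cast h3

end Pool.Agent.MP_a2be38_co
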