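import Mathlib

/-!
# From the moment identity to weighted spherical designs
-/

set_option autoImplicit false

namespace Pool.Agent.MP_a2be38_co

open MeasureTheory Metric Finset
open scoped Pointwise

/-- euclidean space -/
abbrev Eu (d : ℕ) := EuclideanSpace ℝ (Fin d)

/-- the unit sphere -/
abbrev Sp (d : ℕ) := Metric.sphere (0 : EuclideanSpace ℝ (Fin d)) 1

/-- surface measure -/
noncomputable abbrev mu (d : ℕ) : Measure (Sp d) := (volume : Measure (Eu d)).toSphere

/-- action of an isometry on the sphere -/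
noncomputable def act {d : ℕ} (T : Eu d ≃ₗᵢ[ℝ] Eu d) (x : Sp d) : Sp d :=
  ⟨T x, by
    have := x.2
    rw [mem_sphere_zero_iff_norm] at this ⊢
    rw [T.norm_map, this]⟩

theorem act_continuous {d : ℕ} (T : Eu d ≃ₗᵢ[ℝ] Eu d) : Continuous (act T) :=
  Continuous.subtype_mk (T.continuous.comp continuous_subtype_val) _

/-- invariance of the surface measure -/
theorem act_measurePreserving {d : ℕ} (T : Eu d ≃ₗᵢ[ℝ] Eu d) :
    MeasurePreserving (act T) (mu d) (mu d) := by
  refine ⟨(act_continuous T).measurable, ?_⟩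
  ext s hs
  rw [Measure.map_apply (act_continuous T).measurable hs,
    Measure.toSphere_apply' _ ((act_continuous T).measurable hs), Measure.toSphere_apply' _ hs]
  congr 1
  have hset : (Set.Ioo (0 : ℝ) 1 • ((↑) '' (act T ⁻¹' s)) : Set (Eu d)) =
      T ⁻¹' (Set.Ioo (0 : ℝ) 1 • ((↑) '' s)) := by
    ext x
    constructor
    · rintro ⟨r, hr, y, ⟨z, hz, rfl⟩, rfl⟩
      exact ⟨r, hr, T z, ⟨act T z, hz, rfl⟩, (T.map_smul r _).symm⟩
    · rintro ⟨r, hr, y, ⟨z, hz, rfl⟩, h⟩
      refine ⟨r, hr, T.symm z, ⟨act T.symm z, ?_, rfl⟩, ?_⟩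
      · have : act T (act T.symm z) = z := Subtype.ext (T.apply_symm_apply _)
        change act T (act T.symm z) ∈ s
        rw [this]; exact hz
      · have h' : T x = r • (z : Eu d) := h.symm
        change r • T.symm z = x
        rw [← T.symm.map_smul, ← h', T.symm_apply_apply]
  rw [hset]
  exact T.measurePreserving.measure_preimage_equiv (f := T.toHomeomorph.toMeasurableEquiv) _

theorem integral_act {d : ℕ} (T : Eu d ≃ₗᵢ[ℝ] Eu d) (f : Sp d → ℝ) :
    ∫ x, f (act T x) ∂(mu d) = ∫ x, f x ∂(mu d) := by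
  have hinj : Function.Injective (act T) := by
    intro x y h
    apply Subtype.ext
    exact T.injective (congrArg Subtype.val h)
  have hme : MeasurableEmbedding (act T) :=
    (act_continuous T).measurableEmbedding hinj
  exact (act_measurePreserving T).integral_comp hme f

theorem integrable_cont {d : ℕ} {f : Sp d → ℝ} (hf : Continuous f) : Integrable f (mu d) :=
  hf.integrable_of_hasCompactSupport (HasCompactSupport.of_compactSpace f)

/-- the integral of a power of a linear form -/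
theorem exists_lambda {d : ℕ} (hd : 1 ≤ d) (t : ℕ) (ht : 1 ≤ t) :
    ∃ lam : ℝ, ∀ g : Eu d, ∫ x, (inner ℝ (x : Eu d) g) ^ (2 * t) ∂(mu d) =
      lam * ‖g‖ ^ (2 * t) := by
  obtain ⟨u₀, hu₀⟩ : ∃ u : Eu d, ‖u‖ = 1 :=
    ⟨EuclideanSpace.single ⟨0, hd⟩ 1, by simp⟩
  refine ⟨∫ x, (inner ℝ (x : Eu d) u₀) ^ (2 * t) ∂(mu d), fun g => ?_⟩
  by_cases hg : g = 0
  · subst hg
    have : 2 * t ≠ 0 := by omega
    simp [this]
  · have hn : ‖g‖ ≠ 0 := norm_ne_zero_iff.2 hg
    set u : Eu d := ‖g‖⁻¹ • g with hu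
    have hu1 : ‖u‖ = 1 := by rw [hu, norm_smul, norm_inv, norm_norm, inv_mul_cancel₀ hn]
    have hgu : g = ‖g‖ • u := by rw [hu, smul_smul, mul_inv_cancel₀ hn, one_smul]
    let T : Eu d ≃ₗᵢ[ℝ] Eu d := (Submodule.span ℝ {u - u₀})ᗮ.reflection
    have hT : T u = u₀ := Submodule.reflection_sub (hu1.trans hu₀.symm)
    have h1 : ∀ x : Sp d, (inner ℝ (x : Eu d) g) ^ (2 * t) =
        ‖g‖ ^ (2 * t) * (inner ℝ ((act T x : Sp d) : Eu d) u₀) ^ (2 * t) := by
      intro x
      have : inner ℝ ((act T x : Sp d) : Eu d) u₀ = inner ℝ (x : Eu d) u := by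
        rw [← hT]; exact T.inner_map_map _ _
      rw [this]
      nth_rewrite 1 [hgu]
      rw [real_inner_smul_right, mul_pow]
    simp_rw [h1]
    rw [integral_const_mul, integral_act T (fun x => (inner ℝ (x : Eu d) u₀) ^ (2 * t)), mul_comm]

theorem mu_univ_pos {d : ℕ} (hd : 1 ≤ d) : 0 < (mu d).real Set.univ := by
  haveI : Nontrivial (Eu d) := by
    have : Nonempty (Fin d) := ⟨⟨0, hd⟩⟩
    exact Module.nontrivial_of_finrank_pos (R := ℝ) (by rw [finrank_euclideanSpace_fin]; omega)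
  rw [measureReal_def]
  apply ENNReal.toReal_pos
  · rw [Ne, Measure.measure_univ_eq_zero]
    exact Measure.toSphere_ne_zero _
  · exact measure_ne_top _ _

end Pool.Agent.MP_a2be38_co
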