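import Pool.Agent.Lib.MP_a2be38_co.Circle

/-!
# The commuting circle averages and their common eigenbasis
-/

set_option autoImplicit false

namespace Pool.Agent.MP_a2be38_co

open Finset Matrix

variable {p : ℕ} [Fact p.Prime]

/-- sum of the Weyl matrices over a circle -/
noncomputable def S (δ r : ZMod p) : Matrix (ZMod p) (ZMod p) ℂ := ∑ w ∈ Cr δ r, E w

theorem S_herm (hp : p ≠ 2) (δ r : ZMod p) : (S δ r)ᴴ = S δ r := by
  rw [S, Matrix.conjTranspose_sum]
  simp_rw [E_conj hp]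
  refine Finset.sum_bij' (fun w _ => -w) (fun w _ => -w) ?_ ?_ ?_ ?_ ?_
  · intro w hw; rw [mem_Cr] at hw ⊢; rw [Q_neg, hw]
  · intro w hw; rw [mem_Cr] at hw ⊢; rw [Q_neg, hw]
  · intro w _; simp
  · intro w _; simp
  · intro w _; rfl

theorem S_zero {δ : ZMod p} (hδ : ¬ IsSquare δ) : S δ 0 = 1 := by
  rw [S, Cr_zero hδ, Finset.sum_singleton, E_zero]

theorem trace_SE (hp : p ≠ 2) (δ r : ZMod p) (w : ZMod p × ZMod p) :
    (S δ r * E w).trace = if Q δ w = r then (p : ℂ) else 0 := by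
  rw [S, Finset.sum_mul, Matrix.trace_sum]
  simp_rw [trace_EE hp]
  by_cases h : Q δ w = r
  · rw [if_pos h, Finset.sum_eq_single (-w)]
    · simp
    · intro z _ hz
      rw [if_neg]; intro h'; exact hz (eq_neg_of_add_eq_zero_left h')
    · intro h'; exact absurd (mem_Cr.2 (by rw [Q_neg, h])) h'
  · rw [if_neg h]
    apply Finset.sum_eq_zero
    intro z hz
    rw [if_neg]; intro h'
    apply h
    rw [mem_Cr] at hz
    rw [← hz, eq_neg_of_add_eq_zero_left h', Q_neg]

theorem trace_SSE (hp : p ≠ 2) (δ r s : ZMod p) (w : ZMod p × ZMod p) :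
    (S δ r * S δ s * E w).trace = (p : ℂ) * ∑ z : ZMod p × ZMod p,
      (if Q δ z = r ∧ Q δ (w + z) = s then ψ (hf * ω w z) else 0) := by
  rw [S, S, Finset.sum_mul_sum, Finset.sum_mul, Matrix.trace_sum, Finset.mul_sum,
    ← Finset.sum_filter_add_sum_filter_not (univ : Finset (ZMod p × ZMod p))
      (fun z => Q δ z = r)]
  have hz : ∑ z ∈ univ.filter (fun z : ZMod p × ZMod p => ¬ Q δ z = r), (p : ℂ) *
      (if Q δ z = r ∧ Q δ (w + z) = s then ψ (hf * ω w z) else 0) = 0 := by
    apply Finset.sum_eq_zero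
    intro z hz
    rw [Finset.mem_filter] at hz
    rw [if_neg (fun h => hz.2 h.1), mul_zero]
  rw [hz, add_zero]
  apply Finset.sum_congr rfl
  intro u hu
  replace hu : Q δ u = r := mem_Cr.1 hu
  rw [Finset.sum_mul, Matrix.trace_sum]
  simp_rw [trace_EEE hp]
  by_cases h : Q δ (w + u) = s
  · rw [if_pos ⟨hu, h⟩, Finset.sum_eq_single (-(w + u))]
    · rw [if_pos (by abel)]
      congr 3
      simp only [ω, Prod.fst_neg, Prod.snd_neg, Prod.fst_add, Prod.snd_add]; ring
    · intro v _ hv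
      rw [if_neg]; intro h'
      apply hv
      rw [eq_neg_iff_add_eq_zero, ← h']; abel
    · intro h'; exact absurd (mem_Cr.2 (by rw [Q_neg, h])) h'
  · rw [if_neg (fun h' => h h'.2), mul_zero]
    apply Finset.sum_eq_zero
    intro v hv
    rw [if_neg]; intro h'
    apply h
    rw [mem_Cr] at hv
    have : v = -(w + u) := by rw [eq_neg_iff_add_eq_zero, ← h']; abel
    rw [← hv, this, Q_neg]

theorem ext_trace (hp : p ≠ 2) {X Y : Matrix (ZMod p) (ZMod p) ℂ}
    (h : ∀ w : ZMod p × ZMod p, (X * E w).trace = (Y * E w).trace) : X = Y := by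
  have hp0 : (p : ℂ) ≠ 0 := by
    have := (Fact.out (p := p.Prime)).pos
    exact_mod_cast this.ne'
  have : (p : ℂ) • X = (p : ℂ) • Y := by
    rw [complete hp, complete hp]
    exact Finset.sum_congr rfl fun w _ => by rw [h]
  exact smul_right_injective _ hp0 this

theorem S_comm (hp : p ≠ 2) {δ : ZMod p} (hδ : ¬ IsSquare δ) (r s : ZMod p) :
    S δ r * S δ s = S δ s * S δ r := by
  have h2 := two_hf hp
  apply ext_trace hp
  intro w
  rw [trace_SSE hp, trace_SSE hp]
  congr 1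
  by_cases hw : w = 0
  · subst hw
    apply Finset.sum_congr rfl
    intro z _
    simp only [zero_add, and_comm]
  · rw [circ_sum hp (Q_ne_zero hδ hw) r s (fun y => ψ (hf * y)),
      circ_sum hp (Q_ne_zero hδ hw) s r (fun y => ψ (hf * y))]
    apply Finset.sum_congr rfl
    intro y _
    have : (hf * (s - Q δ w - r)) ^ 2 - Q δ w * r = (hf * (r - Q δ w - s)) ^ 2 - Q δ w * s := by
      linear_combination (Q δ w * (r - s)) * (h2 + 2 * hf * h2)
    rw [this]

/-- the quantity `ψ(D/2) + ψ(-D/2)` or `1`. -/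
noncomputable def W (D : ZMod p) : ℂ := ψ (hf * D) + ψ (-(hf * D)) - if D = 0 then 1 else 0

theorem sum_W (hp : p ≠ 2) {δ : ZMod p} (hδ : ¬ IsSquare δ) (D : ZMod p) :
    ∑ y : ZMod p, (if δ * y ^ 2 = δ * D ^ 2 then ψ (hf * y) else 0) = W D := by
  have hδ0 : δ ≠ 0 := by rintro rfl; exact hδ ⟨0, by simp⟩
  have hiff : ∀ y : ZMod p, δ * y ^ 2 = δ * D ^ 2 ↔ y ∈ ({D, -D} : Finset (ZMod p)) := by
    intro y
    rw [Finset.mem_insert, Finset.mem_singleton, mul_right_inj' hδ0, sq_eq_sq_iff_eq_or_eq_neg]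
  simp_rw [hiff]
  rw [← Finset.sum_filter, Finset.filter_mem_eq_inter, Finset.univ_inter]
  by_cases hD : D = 0
  · subst hD
    simp [W]
  · rw [Finset.sum_pair, W, if_neg hD, sub_zero, mul_neg]
    intro h
    apply hD
    have h2 := two_hf hp
    have : D + D = 0 := by
      nth_rewrite 2 [h]; ring
    linear_combination hf * this - D * h2

theorem trace_SSS (hp : p ≠ 2) {δ : ZMod p} (hδ : ¬ IsSquare δ) (u v : ZMod p × ZMod p)
    (hu : u ≠ 0) :
    (S δ (Q δ u) * S δ (Q δ v) * S δ (Q δ (u + v))).trace = (p : ℂ) * (p + 1) * W (ω u v) := by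
  have h2 := two_hf hp
  have e : (S δ (Q δ u) * S δ (Q δ v) * S δ (Q δ (u + v))).trace =
      ∑ w ∈ Cr δ (Q δ u), (S δ (Q δ v) * S δ (Q δ (u + v)) * E w).trace := by
    rw [Matrix.mul_assoc, Matrix.trace_mul_comm]
    conv_lhs => rw [S.eq_1 δ (Q δ u)]
    rw [Finset.mul_sum, Matrix.trace_sum]
  rw [e]
  have h3 : ∀ w ∈ Cr δ (Q δ u), (S δ (Q δ v) * S δ (Q δ (u + v)) * E w).trace =
      (p : ℂ) * W (ω u v) := by
    intro w hw
    rw [mem_Cr] at hw
    rw [trace_SSE hp, circ_sum hp (by rw [hw]; exact Q_ne_zero hδ hu) _ _ (fun y => ψ (hf * y)),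
      ← sum_W hp hδ]
    congr 1
    apply Finset.sum_congr rfl
    intro y _
    have : (hf * (Q δ (u + v) - Q δ w - Q δ v)) ^ 2 - Q δ w * Q δ v = δ * ω u v ^ 2 := by
      rw [hw, Q_add, QQ]
      have : hf * (Q δ u + Q δ v + 2 * Bf δ u v - Q δ u - Q δ v) = Bf δ u v := by
        linear_combination (Bf δ u v) * h2
      rw [this]; ring
    rw [this]
  rw [Finset.sum_congr rfl h3, Finset.sum_const, card_Cr hp hδ (Q_ne_zero hδ hu), nsmul_eq_mul]
  push_cast; ring

/-- a common orthonormal eigenbasis of all circle sums -/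
theorem exists_basis (hp : p ≠ 2) {δ : ZMod p} (hδ : ¬ IsSquare δ) :
    ∃ (b : OrthonormalBasis (Fin p) ℂ (EuclideanSpace ℂ (ZMod p))) (l : Fin p → ZMod p → ℂ),
      ∀ j r, S δ r *ᵥ (b j).ofLp = l j r • (b j).ofLp := by
  classical
  let T : ZMod p → Module.End ℂ (EuclideanSpace ℂ (ZMod p)) :=
    fun r => Matrix.toEuclideanLin (S δ r)
  have hT : ∀ r, (T r).IsSymmetric := fun r =>
    Matrix.isSymmetric_toEuclideanLin_iff.2 (S_herm hp δ r)
  have hC : Pairwise (Function.onFun Commute T) := by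
    intro r s _
    change T r * T s = T s * T r
    apply LinearMap.ext
    intro x
    change Matrix.toEuclideanLin (S δ r) (Matrix.toEuclideanLin (S δ s) x) =
      Matrix.toEuclideanLin (S δ s) (Matrix.toEuclideanLin (S δ r) x)
    apply (WithLp.ofLp_injective 2)
    simp only [Matrix.ofLp_toLpLin, Matrix.toLin'_apply, Matrix.mulVec_mulVec, S_comm hp hδ r s]
  have hI := LinearMap.IsSymmetric.directSum_isInternal_of_pairwise_commute hT hC
  have hO := LinearMap.IsSymmetric.orthogonalFamily_iInf_eigenspaces hT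
  set V : (ZMod p → ℂ) → Submodule ℂ (EuclideanSpace ℂ (ZMod p)) :=
    fun γ => ⨅ j, Module.End.eigenspace (T j) (γ j) with hV
  have hI' : DirectSum.IsInternal (fun i : {i // V i ≠ ⊥} => V i) :=
    DirectSum.isInternal_ne_bot_iff.2 hI
  have hfin : {i | V i ≠ ⊥}.Finite :=
    Submodule.finite_ne_bot_of_iSupIndep hI.submodule_iSupIndep
  haveI : Fintype {i // V i ≠ ⊥} := hfin.fintype
  have hO' : OrthogonalFamily ℂ (fun i : {i // V i ≠ ⊥} => V i)
      fun i => (V i).subtypeₗᵢ := hO.comp Subtype.val_injective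
  have hn : Module.finrank ℂ (EuclideanSpace ℂ (ZMod p)) = p := by
    rw [finrank_euclideanSpace, ZMod.card]
  refine ⟨hI'.subordinateOrthonormalBasis hn hO',
    fun j => (hI'.subordinateOrthonormalBasisIndex hn j hO').1, ?_⟩
  intro j r
  have hmem := hI'.subordinateOrthonormalBasis_subordinate hn j hO'
  have h1 := (Submodule.mem_iInf _).1 hmem r
  rw [Module.End.mem_eigenspace_iff] at h1
  have h2 := congrArg WithLp.ofLp h1
  simpa only [T, Matrix.ofLp_toLpLin, Matrix.toLin'_apply, WithLp.ofLp_smul] using h2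

section

variable (b : OrthonormalBasis (Fin p) ℂ (EuclideanSpace ℂ (ZMod p)))

theorem b_dot (i j : Fin p) : star (b i).ofLp ⬝ᵥ (b j).ofLp = if i = j then 1 else 0 := by
  have h := orthonormal_iff_ite.1 b.orthonormal i j
  rw [← h, EuclideanSpace.inner_eq_star_dotProduct, dotProduct_comm]

theorem mat_ext {X Y : Matrix (ZMod p) (ZMod p) ℂ}
    (h : ∀ j, X *ᵥ (b j).ofLp = Y *ᵥ (b j).ofLp) : X = Y := by
  have : Matrix.toEuclideanLin X = Matrix.toEuclideanLin Y := by
    apply b.toBasis.ext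
    intro j
    rw [OrthonormalBasis.coe_toBasis]
    apply (WithLp.ofLp_injective 2)
    simpa only [Matrix.ofLp_toLpLin, Matrix.toLin'_apply] using h j
  exact Matrix.toEuclideanLin.injective this

theorem P_mulVec (f g : ZMod p → ℂ) : P f *ᵥ g = (star f ⬝ᵥ g) • f := by
  ext x
  simp only [P, Matrix.mulVec, dotProduct, Matrix.vecMulVec_apply, Pi.smul_apply, smul_eq_mul,
    Finset.sum_mul]
  exact Finset.sum_congr rfl fun y _ => by ring

theorem sum_P : ∑ j, P (b j).ofLp = 1 := by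
  apply mat_ext b
  intro i
  rw [Matrix.sum_mulVec, Matrix.one_mulVec]
  simp_rw [P_mulVec, b_dot]
  simp

theorem trace_eq (X : Matrix (ZMod p) (ZMod p) ℂ) :
    X.trace = ∑ j, (X * P (b j).ofLp).trace := by
  rw [← Matrix.trace_sum, ← Finset.mul_sum, sum_P, Matrix.mul_one]

end

theorem mul_P (X : Matrix (ZMod p) (ZMod p) ℂ) (f : ZMod p → ℂ) (c : ℂ)
    (h : X *ᵥ f = c • f) : X * P f = c • P f := by
  rw [P, Matrix.mul_vecMulVec, h]
  ext x y; simp [Matrix.vecMulVec_apply, mul_assoc]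

/-- the ambiguity functions of the eigenvectors are radial -/
theorem radial (hp : p ≠ 2) {δ : ZMod p} (hδ : ¬ IsSquare δ)
    (b : OrthonormalBasis (Fin p) ℂ (EuclideanSpace ℂ (ZMod p))) (l : Fin p → ZMod p → ℂ)
    (hb : ∀ j r, S δ r *ᵥ (b j).ofLp = l j r • (b j).ofLp) (j : Fin p) :
    ∃ μ : ZMod p → ℂ, ∀ w, amb (b j).ofLp w = μ (Q δ w) := by
  have hp0 : (p : ℂ) ≠ 0 := by
    have := (Fact.out (p := p.Prime)).pos
    exact_mod_cast this.ne'
  let X : (ZMod p → ℂ) → Matrix (ZMod p) (ZMod p) ℂ := fun c => ∑ r, c r • S δ r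
  let L : (ZMod p → ℂ) →ₗ[ℂ] (Fin p → ℂ) :=
    { toFun := fun c i => ∑ r, c r * l i r
      map_add' := by
        intro c d; ext i; simp [add_mul, Finset.sum_add_distrib]
      map_smul' := by
        intro c d; ext i; simp [mul_assoc, Finset.mul_sum] }
  have hX : ∀ c i, X c *ᵥ (b i).ofLp = (L c i) • (b i).ofLp := by
    intro c i
    simp only [X, L, LinearMap.coe_mk, AddHom.coe_mk]
    rw [Matrix.sum_mulVec, Finset.sum_smul]
    apply Finset.sum_congr rfl
    intro r _
    rw [Matrix.smul_mulVec, hb, smul_smul]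
  have htr : ∀ c w, (X c * E w).trace = (p : ℂ) * c (Q δ w) := by
    intro c w
    simp only [X]
    rw [Finset.sum_mul, Matrix.trace_sum, Finset.sum_eq_single (Q δ w)]
    · rw [Matrix.smul_mul, Matrix.trace_smul, trace_SE hp, if_pos rfl, smul_eq_mul, mul_comm]
    · intro r _ hr
      rw [Matrix.smul_mul, Matrix.trace_smul, trace_SE hp, if_neg (fun h => hr h.symm), smul_zero]
    · intro h; exact absurd (Finset.mem_univ _) h
  have hinj : Function.Injective L := by
    rw [← LinearMap.ker_eq_bot, LinearMap.ker_eq_bot']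
    intro c hc
    have h0 : X c = 0 := by
      apply mat_ext b
      intro i
      rw [hX, hc]; simp
    ext r
    obtain ⟨w, hw⟩ := Q_surj hp hδ r
    have := htr c w
    rw [h0, Matrix.zero_mul, Matrix.trace_zero, hw] at this
    exact (mul_eq_zero.1 this.symm).resolve_left hp0
  have hsurj : Function.Surjective L := by
    apply (LinearMap.injective_iff_surjective_of_finrank_eq_finrank ?_).1 hinj
    simp
  obtain ⟨c, hc⟩ := hsurj (Pi.single j 1)
  have hP : P (b j).ofLp = X c := by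
    apply mat_ext b
    intro i
    rw [hX, hc, P_mulVec, b_dot]
    by_cases h : j = i
    · subst h; simp
    · rw [if_neg h, Pi.single_eq_of_ne (fun h' => h h'.symm)]; simp
  refine ⟨fun r => (p : ℂ) * c r, fun w => ?_⟩
  rw [amb, hP, htr]

/-- main properties of the torus basis -/
theorem exists_torus_basis (hp : p ≠ 2) {δ : ZMod p} (hδ : ¬ IsSquare δ) :
    ∃ (b : OrthonormalBasis (Fin p) ℂ (EuclideanSpace ℂ (ZMod p))),
      ∀ u v : ZMod p × ZMod p, ((p : ℂ) + 1) ^ 2 *
        ∑ j, amb (b j).ofLp u * amb (b j).ofLp v * amb (b j).ofLp (-(u + v)) =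
        (p : ℂ) * (W (ω u v) + (p : ℂ) * ((if u = 0 then 1 else 0) + (if v = 0 then 1 else 0) +
          (if u + v = 0 then 1 else 0)) + ((p : ℂ) ^ 2 - p) * (if u = 0 ∧ v = 0 then 1 else 0)) := by
  have hp1 : ((p : ℂ) + 1) ≠ 0 := by exact_mod_cast Nat.succ_ne_zero p
  obtain ⟨b, l, hb⟩ := exists_basis hp hδ
  refine ⟨b, ?_⟩
  choose μ hμ using fun j => radial hp hδ b l hb j
  have hcard : ∀ j r, ((Cr δ r).card : ℂ) * μ j r = l j r := by
    intro j r
    have h1 : (S δ r * P (b j).ofLp).trace = l j r := by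
      rw [mul_P _ _ _ (hb j r), Matrix.trace_smul, P, Matrix.trace_vecMulVec, dotProduct_comm,
        b_dot, if_pos rfl, smul_eq_mul, mul_one]
    rw [← h1, S, Finset.sum_mul, Matrix.trace_sum]
    have : ∀ w ∈ Cr δ r, (E w * P (b j).ofLp).trace = μ j r := by
      intro w hw
      rw [mem_Cr] at hw
      rw [Matrix.trace_mul_comm, ← hw, ← hμ]; rfl
    rw [Finset.sum_congr rfl this, Finset.sum_const, nsmul_eq_mul]
  have htr : ∀ r s t, ∑ j, l j r * l j s * l j t = (S δ r * S δ s * S δ t).trace := by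
    intro r s t
    rw [trace_eq b]
    apply Finset.sum_congr rfl
    intro j _
    rw [Matrix.mul_assoc, mul_P _ _ _ (hb j t), Matrix.mul_smul, Matrix.mul_assoc,
      mul_P _ _ _ (hb j s), Matrix.mul_smul, mul_P _ _ _ (hb j r)]
    simp only [smul_smul, Matrix.trace_smul]
    rw [P, Matrix.trace_vecMulVec, dotProduct_comm, b_dot, if_pos rfl, smul_eq_mul]
    ring
  have hκ : ∀ u v : ZMod p × ZMod p,
      ∑ j, amb (b j).ofLp u * amb (b j).ofLp v * amb (b j).ofLp (-(u + v)) =
      ∑ j, μ j (Q δ u) * μ j (Q δ v) * μ j (Q δ (u + v)) := by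
    intro u v
    apply Finset.sum_congr rfl
    intro j _
    rw [hμ, hμ, hμ, Q_neg]
  have hmain : ∀ u v : ZMod p × ZMod p,
      ((Cr δ (Q δ u)).card : ℂ) * (Cr δ (Q δ v)).card * (Cr δ (Q δ (u + v))).card *
      ∑ j, μ j (Q δ u) * μ j (Q δ v) * μ j (Q δ (u + v)) =
      (S δ (Q δ u) * S δ (Q δ v) * S δ (Q δ (u + v))).trace := by
    intro u v
    rw [← htr, Finset.mul_sum]
    apply Finset.sum_congr rfl
    intro j _
    rw [← hcard, ← hcard, ← hcard]; ring
  have hc0 : ((Cr δ 0).card : ℂ) = 1 := by rw [Cr_zero hδ]; simp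
  have hc1 : ∀ w : ZMod p × ZMod p, w ≠ 0 → ((Cr δ (Q δ w)).card : ℂ) = (p : ℂ) + 1 := by
    intro w hw
    rw [card_Cr hp hδ (Q_ne_zero hδ hw)]; push_cast; ring
  have hW0 : (W (0 : ZMod p)) = 1 := by simp [W]
  -- case `u ≠ 0`
  have hA : ∀ u v : ZMod p × ZMod p, u ≠ 0 → ((p : ℂ) + 1) ^ 2 *
      ∑ j, μ j (Q δ u) * μ j (Q δ v) * μ j (Q δ (u + v)) =
      (p : ℂ) * (W (ω u v) + (p : ℂ) * ((if v = 0 then 1 else 0) +
          (if u + v = 0 then 1 else 0))) := by
    intro u v hu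
    have h1 := hmain u v
    rw [trace_SSS hp hδ u v hu, hc1 u hu] at h1
    apply mul_left_cancel₀ hp1
    by_cases hv : v = 0
    · subst hv
      have hω : ω u 0 = 0 := by simp [ω]
      rw [add_zero, Q_zero, hc0, hc1 u hu, hω, hW0] at h1
      rw [add_zero, Q_zero, hω, hW0, if_pos rfl, if_neg hu]
      linear_combination (p + 1) * h1
    · by_cases huv : u + v = 0
      · have hv' : v = -u := eq_neg_of_add_eq_zero_right huv
        have hω : ω u v = 0 := by rw [hv']; simp only [ω, Prod.fst_neg, Prod.snd_neg]; ring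
        rw [huv, Q_zero, hc0, hc1 v hv, hω, hW0] at h1
        rw [huv, Q_zero, hω, hW0, if_pos rfl, if_neg hv]
        linear_combination (p + 1) * h1
      · rw [hc1 v hv, hc1 _ huv] at h1
        rw [if_neg hv, if_neg huv]
        linear_combination h1
  intro u v
  rw [hκ]
  by_cases hu : u = 0
  · by_cases hv : v = 0
    · subst hu; subst hv
      have h1 := hmain 0 0
      have hω : ω (0 : ZMod p × ZMod p) 0 = 0 := by simp [ω]
      rw [add_zero, Q_zero, hc0, S_zero hδ, Matrix.mul_one, Matrix.mul_one, Matrix.trace_one,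
        ZMod.card] at h1
      rw [add_zero, Q_zero, hω, hW0]
      simp only [and_self, if_true]
      linear_combination ((p : ℂ) + 1) ^ 2 * h1
    · have h1 := hA v 0 hv
      subst hu
      have hω : ω (0 : ZMod p × ZMod p) v = 0 := by simp [ω]
      have hω' : ω v (0 : ZMod p × ZMod p) = 0 := by simp [ω]
      rw [add_zero, if_pos rfl, if_neg hv, Q_zero, hω', hW0] at h1
      rw [zero_add, hω, hW0, Q_zero, if_pos rfl, if_neg hv, if_neg (fun h => hv h.2)]
      rw [Finset.sum_congr rfl (fun j _ => show μ j 0 * μ j (Q δ v) * μ j (Q δ v) =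
        μ j (Q δ v) * μ j 0 * μ j (Q δ v) by ring)]
      linear_combination h1
  · have huv' : ¬ (u = 0 ∧ v = 0) := fun h => hu h.1
    rw [hA u v hu, if_neg hu, if_neg huv']
    ring

end Pool.Agent.MP_a2be38_co
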